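import Mathlib

/-!
# Brannan's coefficient conjecture, `β = 1`: combinatorial part
-/

set_option autoImplicit false

namespace Pool.Agent.V8H52.Bran

open Finset

/-- The binomial coefficient `α (α-1) ⋯ (α-k+1) / k!`. -/
noncomputable def c (α : ℝ) (k : ℕ) : ℝ := (∏ j ∈ Finset.range k, (α - (j : ℝ))) / (k.factorial : ℝ)

/-- The partial sum of the binomial series. -/
noncomputable def S (α : ℝ) (n : ℕ) (x : ℂ) : ℂ := ∑ k ∈ Finset.range (n + 1), (c α k : ℂ) * x ^ k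

/-- The partial sum at `1`. -/
noncomputable def S1 (α : ℝ) (n : ℕ) : ℝ := ∑ k ∈ Finset.range (n + 1), c α k

lemma c_zero (α : ℝ) : c α 0 = 1 := by simp [c]

lemma c_one (α : ℝ) : c α 1 = α := by simp [c]

lemma c_succ (α : ℝ) (k : ℕ) : c α (k + 1) = c α k * ((α - k) / (k + 1)) := by
  unfold c
  rw [Finset.prod_range_succ, Nat.factorial_succ]
  push_cast
  have h1 : (k.factorial : ℝ) ≠ 0 := by positivity
  have h2 : (k : ℝ) + 1 ≠ 0 := by positivity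
  field_simp

lemma c_succ' (α : ℝ) (k : ℕ) : c (α + 1) (k + 1) = c α k * ((α + 1) / (k + 1)) := by
  unfold c
  rw [Finset.prod_range_succ', Nat.factorial_succ]
  push_cast
  have h1 : (k.factorial : ℝ) ≠ 0 := by positivity
  have h2 : (k : ℝ) + 1 ≠ 0 := by positivity
  have h3 : ∏ j ∈ Finset.range k, (α + 1 - ((j : ℝ) + 1)) = ∏ j ∈ Finset.range k, (α - (j : ℝ)) := by
    apply Finset.prod_congr rfl
    intro j _
    ring
  rw [h3]
  field_simp
  ring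

lemma pascal (α : ℝ) (k : ℕ) : c (α + 1) (k + 1) = c α (k + 1) + c α k := by
  rw [c_succ', c_succ]
  have h2 : (k : ℝ) + 1 ≠ 0 := by positivity
  field_simp
  ring

lemma S_zero (α : ℝ) (x : ℂ) : S α 0 x = 1 := by simp [S, c_zero]

lemma S_one_eq (α : ℝ) (n : ℕ) : S α n 1 = (S1 α n : ℂ) := by
  simp [S, S1]

lemma S_succ (α : ℝ) (n : ℕ) (x : ℂ) : S α (n + 1) x = S α n x + (c α (n + 1) : ℂ) * x ^ (n + 1) := by
  unfold S
  rw [Finset.sum_range_succ]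

/-- `S_{n+1}^{α+1} = S_{n+1}^α + x S_n^α` -/
lemma S_pascal (α : ℝ) (n : ℕ) (x : ℂ) : S (α + 1) (n + 1) x = S α (n + 1) x + x * S α n x := by
  unfold S
  rw [Finset.sum_range_succ' _ (n + 1), Finset.sum_range_succ' _ (n + 1), Finset.mul_sum]
  simp only [pascal, c_zero]
  push_cast
  have : ∀ k ∈ Finset.range (n + 1), ((c α (k + 1) : ℂ) + (c α k : ℂ)) * x ^ (k + 1) =
      (c α (k + 1) : ℂ) * x ^ (k + 1) + x * ((c α k : ℂ) * x ^ k) := by
    intro k _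
    ring
  rw [Finset.sum_congr rfl this, Finset.sum_add_distrib]
  ring

/-- `S_{n+1}^{α+1} = (1 + x) S_n^α + c_{n+1} x^{n+1}` -/
lemma S_step (α : ℝ) (n : ℕ) (x : ℂ) :
    S (α + 1) (n + 1) x = (1 + x) * S α n x + (c α (n + 1) : ℂ) * x ^ (n + 1) := by
  rw [S_pascal, S_succ]
  ring

/-- If all partial sums are maximal at `1` for `α`, so they are for `α + 1`. -/
lemma step_up (α : ℝ) (h : ∀ (n : ℕ) (x : ℂ), ‖x‖ = 1 → ‖S α n x‖ ≤ S1 α n) :
    ∀ (n : ℕ) (x : ℂ), ‖x‖ = 1 → ‖S (α + 1) n x‖ ≤ S1 (α + 1) n := by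
  intro n x hx
  rcases n with _ | n
  · simp [S_zero, S1, c_zero]
  · have h1 : S1 (α + 1) (n + 1) = S1 α (n + 1) + S1 α n := by
      have := S_pascal α n 1
      rw [S_one_eq, S_one_eq, S_one_eq, one_mul] at this
      exact_mod_cast this
    rw [S_pascal, h1]
    calc ‖S α (n + 1) x + x * S α n x‖ ≤ ‖S α (n + 1) x‖ + ‖x * S α n x‖ := norm_add_le _ _
      _ = ‖S α (n + 1) x‖ + ‖S α n x‖ := by rw [norm_mul, hx, one_mul]
      _ ≤ _ := add_le_add (h _ x hx) (h _ x hx)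

/-- the products `∏ (1 - β/j)` -/
noncomputable def p (β : ℝ) (n : ℕ) : ℝ := ∏ j ∈ Finset.range n, (1 - β / ((j : ℝ) + 1))

lemma p_succ (β : ℝ) (n : ℕ) : p β (n + 1) = p β n * (1 - β / ((n : ℝ) + 1)) := by
  unfold p
  rw [Finset.prod_range_succ]

lemma p_nonneg {β : ℝ} (h1 : β ≤ 1) (n : ℕ) : 0 ≤ p β n := by
  unfold p
  apply Finset.prod_nonneg
  intro j _
  have : β / ((j : ℝ) + 1) ≤ 1 := by
    rw [div_le_one (by positivity)]
    have : (0 : ℝ) ≤ j := by positivity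
    linarith
  linarith

lemma c_abs {β : ℝ} (n : ℕ) : c β (n + 1) = (-1) ^ n * (p β n * (β / ((n : ℝ) + 1))) := by
  induction n with
  | zero => simp [c_one, p]
  | succ n ih =>
    rw [c_succ, ih, p_succ]
    have h2 : (n : ℝ) + 1 ≠ 0 := by positivity
    have h3 : (n : ℝ) + 1 + 1 ≠ 0 := by positivity
    push_cast
    field_simp
    ring

lemma abs_c {β : ℝ} (h0 : 0 ≤ β) (h1 : β ≤ 1) (n : ℕ) :
    |c β (n + 1)| = p β n * (β / ((n : ℝ) + 1)) := by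
  rw [c_abs, abs_mul, abs_pow, abs_neg, abs_one, one_pow, one_mul, abs_of_nonneg]
  have := p_nonneg h1 n
  positivity

lemma sum_abs_c {β : ℝ} (h0 : 0 ≤ β) (h1 : β ≤ 1) (n : ℕ) :
    ∑ k ∈ Finset.range (n + 1), |c β k| = 2 - p β n := by
  induction n with
  | zero => simp [c_zero, p]; norm_num
  | succ n ih =>
    rw [Finset.sum_range_succ, ih, abs_c h0 h1, p_succ]
    ring

lemma p_le {β : ℝ} (h0 : 0 ≤ β) (h1 : β ≤ 1) (n : ℕ) : p β (n + 1) ≤ 1 - β := by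
  induction n with
  | zero => simp [p]
  | succ n ih =>
    rw [p_succ]
    have h2 := p_nonneg h1 (n + 1)
    have h3 : 0 ≤ β / (((n + 1 : ℕ) : ℝ) + 1) := by positivity
    nlinarith

/-- `|c_{n+1}| ≤ β (1 - β) / (n + 1)` for `n ≥ 1` -/
lemma abs_c_le {β : ℝ} (h0 : 0 ≤ β) (h1 : β ≤ 1) {n : ℕ} (hn : 1 ≤ n) :
    |c β (n + 1)| ≤ β * (1 - β) / ((n : ℝ) + 1) := by
  obtain ⟨m, rfl⟩ : ∃ m, n = m + 1 := ⟨n - 1, by omega⟩
  rw [abs_c h0 h1, mul_comm β (1 - β), mul_div_assoc]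
  exact mul_le_mul_of_nonneg_right (p_le h0 h1 m) (by positivity)

lemma norm_S_le {β : ℝ} (h0 : 0 ≤ β) (h1 : β ≤ 1) (n : ℕ) {x : ℂ} (hx : ‖x‖ = 1) :
    ‖S β n x‖ ≤ 2 - p β n := by
  rw [← sum_abs_c h0 h1]
  unfold S
  refine (norm_sum_le _ _).trans (Finset.sum_le_sum fun k _ => ?_)
  rw [norm_mul, norm_pow, hx, one_pow, mul_one, Complex.norm_real, Real.norm_eq_abs]

end Pool.Agent.V8H52.Bran
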