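import Mathlib
import Pool.Agent.V8H52.Bran1

/-!
# Brannan's coefficient conjecture, `β = 1`: integral representation of the partial sums
-/

set_option autoImplicit false

namespace Pool.Agent.V8H52.Bran

open MeasureTheory Filter Topology Set

/-- the weight -/
noncomputable def w (β t : ℝ) : ℝ := t ^ (-β) * (1 - t) ^ β

lemma w_nonneg (β : ℝ) {t : ℝ} (h0 : 0 ≤ t) (h1 : t ≤ 1) : 0 ≤ w β t :=
  mul_nonneg (Real.rpow_nonneg h0 _) (Real.rpow_nonneg (by linarith) _)

lemma w_pos (β : ℝ) {t : ℝ} (h0 : 0 < t) (h1 : t < 1) : 0 < w β t :=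
  mul_pos (Real.rpow_pos_of_pos h0 _) (Real.rpow_pos_of_pos (by linarith) _)

lemma w_measurable (β : ℝ) : Measurable (w β) := by
  unfold w
  fun_prop

lemma w_int {β : ℝ} (h0 : 0 < β) (h1 : β < 1) : IntervalIntegrable (w β) volume 0 1 := by
  unfold w
  apply IntervalIntegrable.mul_continuousOn
  · exact intervalIntegral.intervalIntegrable_rpow' (by linarith)
  · apply ContinuousOn.rpow_const
    · fun_prop
    · intro x _
      exact Or.inr h0.le

/-- moments of the weight -/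
noncomputable def a (β : ℝ) (k : ℕ) : ℝ := ∫ t in (0:ℝ)..1, w β t * t ^ k

lemma w_int_mul {β : ℝ} (h0 : 0 < β) (h1 : β < 1) {g : ℝ → ℝ} (hg : ContinuousOn g (Icc 0 1)) :
    IntervalIntegrable (fun t => w β t * g t) volume 0 1 := by
  apply (w_int h0 h1).mul_continuousOn
  rwa [uIcc_of_le zero_le_one]

lemma w_int_mulC {β : ℝ} (h0 : 0 < β) (h1 : β < 1) {g : ℝ → ℂ} (hg : ContinuousOn g (Icc 0 1)) :
    IntervalIntegrable (fun t => (w β t : ℂ) * g t) volume 0 1 := by
  have h : IntervalIntegrable (fun t => (w β t : ℂ)) volume 0 1 := by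
    have := w_int h0 h1
    exact ⟨this.1.ofReal, this.2.ofReal⟩
  apply h.mul_continuousOn
  rwa [uIcc_of_le zero_le_one]

lemma a_zero_pos {β : ℝ} (h0 : 0 < β) (h1 : β < 1) : 0 < a β 0 := by
  unfold a
  apply intervalIntegral.intervalIntegral_pos_of_pos_on
  · exact w_int_mul h0 h1 (by fun_prop)
  · intro x hx
    have := w_pos β hx.1 hx.2
    simpa using this
  · exact one_pos

lemma a_rec {β : ℝ} (h0 : 0 < β) (h1 : β < 1) (k : ℕ) :
    ((k : ℝ) + 2) * a β (k + 1) = ((k : ℝ) + 1 - β) * a β k := by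
  have key : ∫ t in (0:ℝ)..1, (w β t * (((k : ℝ) + 1 - β) * t ^ k - ((k : ℝ) + 2) * t ^ (k + 1))) =
      0 := by
    have h := intervalIntegral.integral_eq_sub_of_hasDerivAt_of_le (a := (0:ℝ)) (b := 1)
      (f := fun t : ℝ => t ^ (1 - β) * (1 - t) ^ (1 + β) * t ^ k)
      (f' := fun t => w β t * (((k : ℝ) + 1 - β) * t ^ k - ((k : ℝ) + 2) * t ^ (k + 1)))
      zero_le_one ?_ ?_ ?_
    · rw [h]
      have e1 : (1 : ℝ) - β ≠ 0 := by linarith
      have e2 : (1 : ℝ) + β ≠ 0 := by linarith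
      simp [Real.zero_rpow e1, Real.zero_rpow e2]
    · apply ContinuousOn.mul
      · apply ContinuousOn.mul
        · apply ContinuousOn.rpow_const continuousOn_id
          intro x _
          exact Or.inr (by linarith)
        · apply ContinuousOn.rpow_const (by fun_prop)
          intro x _
          exact Or.inr (by linarith)
      · fun_prop
    · intro t ht
      have ht0 : 0 < t := ht.1
      have ht1 : 0 < 1 - t := by linarith [ht.2]
      have d1 : HasDerivAt (fun t : ℝ => t ^ (1 - β)) ((1 - β) * t ^ (1 - β - 1)) t :=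
        Real.hasDerivAt_rpow_const (Or.inl ht0.ne')
      have d2 : HasDerivAt (fun t : ℝ => (1 - t) ^ (1 + β)) (-(1 + β) * (1 - t) ^ (1 + β - 1)) t := by
        have h3 : HasDerivAt (fun t : ℝ => 1 - t) (-1) t := by
          simpa using (hasDerivAt_id t).const_sub 1
        have := h3.rpow_const (p := 1 + β) (Or.inl ht1.ne')
        convert this using 1
        ring
      have d3 : HasDerivAt (fun t : ℝ => t ^ k) ((k : ℝ) * t ^ (k - 1)) t := hasDerivAt_pow k t
      have d := (d1.mul d2).mul d3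
      refine d.congr_deriv ?_
      have e1 : t ^ (1 - β - 1) = t ^ (-β) := by congr 1; ring
      have e2 : (1 - t) ^ (1 + β - 1) = (1 - t) ^ β := by congr 1; ring
      have e3 : t ^ (1 - β) = t ^ (-β) * t := by
        rw [← Real.rpow_add_one ht0.ne']; congr 1; ring
      have e4 : (1 - t) ^ (1 + β) = (1 - t) ^ β * (1 - t) := by
        rw [← Real.rpow_add_one ht1.ne']; congr 1; ring
      have e5 : t * ((k : ℝ) * t ^ (k - 1)) = k * t ^ k := by
        rcases k with _ | k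
        · simp
        · simp only [Nat.add_sub_cancel]; rw [pow_succ]; ring
      simp only [Pi.mul_apply, e1, e2, e3, e4, w]
      calc ((1 - β) * t ^ (-β) * ((1 - t) ^ β * (1 - t)) +
            t ^ (-β) * t * (-(1 + β) * (1 - t) ^ β)) * t ^ k +
            t ^ (-β) * t * ((1 - t) ^ β * (1 - t)) * ((k : ℝ) * t ^ (k - 1))
          = ((1 - β) * t ^ (-β) * ((1 - t) ^ β * (1 - t)) +
            t ^ (-β) * t * (-(1 + β) * (1 - t) ^ β)) * t ^ k +
            t ^ (-β) * ((1 - t) ^ β * (1 - t)) * (t * ((k : ℝ) * t ^ (k - 1))) := by ring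
        _ = _ := by rw [e5]; ring
    · exact w_int_mul h0 h1 (by fun_prop)
  have h2 : ∀ t : ℝ, w β t * (((k : ℝ) + 1 - β) * t ^ k - ((k : ℝ) + 2) * t ^ (k + 1)) =
      ((k : ℝ) + 1 - β) * (w β t * t ^ k) - ((k : ℝ) + 2) * (w β t * t ^ (k + 1)) := by
    intro t; ring
  simp only [h2] at key
  rw [intervalIntegral.integral_sub ((w_int_mul h0 h1 (by fun_prop)).const_mul _)
    ((w_int_mul h0 h1 (by fun_prop)).const_mul _), intervalIntegral.integral_const_mul,
    intervalIntegral.integral_const_mul] at key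
  unfold a
  linarith

lemma c_eq_a {β : ℝ} (h0 : 0 < β) (h1 : β < 1) (k : ℕ) :
    c β (k + 1) = (-1) ^ k * (β / a β 0 * a β k) := by
  have hA := a_zero_pos h0 h1
  induction k with
  | zero => rw [c_one]; field_simp
  | succ k ih =>
    rw [c_succ, ih]
    have h2 := a_rec h0 h1 k
    have h3 : (k : ℝ) + 2 ≠ 0 := by positivity
    have h4 : a β (k + 1) = ((k : ℝ) + 1 - β) * a β k / ((k : ℝ) + 2) := by
      rw [eq_div_iff h3, ← h2]; ring
    rw [h4]
    have h5 : (k : ℝ) + 1 + 1 ≠ 0 := by positivity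
    push_cast
    field_simp
    ring

lemma a_nonneg {β : ℝ} (h0 : 0 < β) (h1 : β < 1) (k : ℕ) : 0 ≤ a β k := by
  unfold a
  apply intervalIntegral.integral_nonneg zero_le_one
  intro t ht
  exact mul_nonneg (w_nonneg β ht.1 ht.2) (pow_nonneg ht.1 k)

lemma abs_c_eq {β : ℝ} (h0 : 0 < β) (h1 : β < 1) (k : ℕ) :
    |c β (k + 1)| = β / a β 0 * a β k := by
  rw [c_eq_a h0 h1, abs_mul, abs_pow, abs_neg, abs_one, one_pow, one_mul, abs_of_nonneg]
  have := a_zero_pos h0 h1
  have := a_nonneg h0 h1 k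
  positivity

/-- the remainder integral -/
noncomputable def R (β : ℝ) (n : ℕ) (x : ℂ) : ℂ :=
  ∫ t in (0:ℝ)..1, (w β t : ℂ) * (x * (-((t : ℂ) * x)) ^ n / (1 + t * x))

/-- the limit function -/
noncomputable def F (β : ℝ) (x : ℂ) : ℂ := 1 + ((β / a β 0 : ℝ) : ℂ) * R β 0 x

lemma cont_R (n : ℕ) {x : ℂ} (hx : ∀ t : ℝ, 0 ≤ t → t ≤ 1 → 1 + (t : ℂ) * x ≠ 0) :
    ContinuousOn (fun t : ℝ => x * (-((t : ℂ) * x)) ^ n / (1 + t * x)) (Icc 0 1) := by
  apply ContinuousOn.div
  · fun_prop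
  · fun_prop
  · intro t ht
    exact hx t ht.1 ht.2

lemma S_add_R {β : ℝ} (h0 : 0 < β) (h1 : β < 1) {x : ℂ}
    (hx : ∀ t : ℝ, 0 ≤ t → t ≤ 1 → 1 + (t : ℂ) * x ≠ 0) (n : ℕ) :
    S β n x + ((β / a β 0 : ℝ) : ℂ) * R β n x = F β x := by
  induction n with
  | zero => rw [S_zero]; rfl
  | succ n ih =>
    rw [← ih, S_succ, c_eq_a h0 h1]
    have key : R β n x - R β (n + 1) x = x ^ (n + 1) * ((-1) ^ n * (a β n : ℂ)) := by
      unfold R
      rw [← intervalIntegral.integral_sub (w_int_mulC h0 h1 (cont_R n hx))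
        (w_int_mulC h0 h1 (cont_R (n + 1) hx))]
      have e1 : ∀ t ∈ Set.uIcc (0:ℝ) 1, (w β t : ℂ) * (x * (-((t : ℂ) * x)) ^ n / (1 + t * x)) -
          (w β t : ℂ) * (x * (-((t : ℂ) * x)) ^ (n + 1) / (1 + t * x)) =
          x ^ (n + 1) * (-1) ^ n * ((w β t * t ^ n : ℝ) : ℂ) := by
        intro t ht
        rw [uIcc_of_le zero_le_one] at ht
        have h2 := hx t ht.1 ht.2
        push_cast
        rw [← mul_sub, ← sub_div]
        have e2 : x * (-((t : ℂ) * x)) ^ n - x * (-((t : ℂ) * x)) ^ (n + 1) =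
            (x ^ (n + 1) * (-1) ^ n * t ^ n) * (1 + t * x) := by
          rw [show (-((t : ℂ) * x)) ^ n = (-1) ^ n * x ^ n * t ^ n by
            rw [neg_pow, mul_pow]; ring]
          rw [show (-((t : ℂ) * x)) ^ (n + 1) = -((-1) ^ n * x ^ n * t ^ n * x * t) by
            rw [neg_pow, mul_pow]; ring]
          ring
        rw [e2, mul_div_cancel_right₀ _ h2]
        ring
      rw [intervalIntegral.integral_congr e1, intervalIntegral.integral_const_mul,
        intervalIntegral.integral_ofReal]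
      unfold a
      ring
    have h2 : R β n x = R β (n + 1) x + x ^ (n + 1) * ((-1) ^ n * (a β n : ℂ)) := by
      rw [← key]; ring
    rw [h2]
    push_cast
    ring

lemma norm_R_le_of_lt {β : ℝ} (h0 : 0 < β) (h1 : β < 1) {x : ℂ} (hx : ‖x‖ < 1) (n : ℕ) :
    ‖R β n x‖ ≤ ‖x‖ ^ (n + 1) * (a β 0 / (1 - ‖x‖)) := by
  unfold R
  have hpos : 0 < 1 - ‖x‖ := by linarith
  have h2 : ∀ t : ℝ, 0 ≤ t → t ≤ 1 → 1 - ‖x‖ ≤ ‖1 + (t : ℂ) * x‖ := by
    intro t ht0 ht1
    have h3 : ‖(t : ℂ) * x‖ ≤ ‖x‖ := by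
      rw [norm_mul, Complex.norm_real, Real.norm_eq_abs, abs_of_nonneg ht0]
      exact mul_le_of_le_one_left (norm_nonneg _) ht1
    have h4 : ‖(1 : ℂ)‖ ≤ ‖1 + (t : ℂ) * x‖ + ‖(t : ℂ) * x‖ := by
      have := norm_sub_le (1 + (t : ℂ) * x) ((t : ℂ) * x)
      simpa using this
    rw [norm_one] at h4
    linarith
  have e : ‖x‖ ^ (n + 1) * (a β 0 / (1 - ‖x‖)) =
      ∫ t in (0:ℝ)..1, (w β t * t ^ 0) * (‖x‖ ^ (n + 1) / (1 - ‖x‖)) := by
    rw [intervalIntegral.integral_mul_const]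
    unfold a
    ring
  rw [e]
  apply intervalIntegral.norm_integral_le_of_norm_le zero_le_one
  · refine Eventually.of_forall fun t ht => ?_
    have hw := w_nonneg β ht.1.le ht.2
    rw [norm_mul, norm_div, norm_mul, norm_pow, norm_neg, norm_mul, Complex.norm_real,
      Complex.norm_real, Real.norm_eq_abs, Real.norm_eq_abs, abs_of_nonneg hw,
      abs_of_nonneg ht.1.le, pow_zero, mul_one]
    apply mul_le_mul_of_nonneg_left _ hw
    apply div_le_div₀ (by positivity) _ hpos (h2 t ht.1.le ht.2)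
    rw [pow_succ, mul_comm]
    apply mul_le_mul_of_nonneg_right _ (norm_nonneg _)
    apply pow_le_pow_left₀ (by have := ht.1.le; positivity)
    exact mul_le_of_le_one_left (norm_nonneg _) ht.2
  · have := (w_int_mul (g := fun t => t ^ 0) h0 h1 (by fun_prop)).mul_const (‖x‖ ^ (n + 1) / (1 - ‖x‖))
    exact this

lemma c_eq_choose (β : ℝ) (k : ℕ) : c β k = Ring.choose β k := by
  unfold c
  have h := Ring.descPochhammer_eq_factorial_smul_choose β k
  rw [nsmul_eq_mul] at h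
  have h2 : (k.factorial : ℝ) ≠ 0 := by positivity
  rw [div_eq_iff h2, mul_comm, ← h]
  clear h h2
  induction k with
  | zero => simp [descPochhammer_zero]
  | succ k ih =>
    rw [Finset.prod_range_succ, ih, descPochhammer_succ_right, Polynomial.smeval_mul]
    simp [Polynomial.smeval_sub, Polynomial.smeval_X, Polynomial.smeval_natCast]

lemma S_tendsto (β : ℝ) {x : ℂ} (hx : ‖x‖ < 1) :
    Tendsto (fun n => S β n x) atTop (𝓝 ((1 + x) ^ (β : ℂ))) := by
  have h := Complex.one_add_cpow_hasFPowerSeriesOnBall_zero (a := (β : ℂ))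
  have hx' : x ∈ Metric.eball (0 : ℂ) 1 := by
    rw [← ENNReal.ofReal_one, Metric.eball_ofReal]
    simpa using hx
  have h2 := h.hasSum hx'
  have h3 := h2.tendsto_sum_nat
  have h4 := h3.comp (tendsto_add_atTop_nat 1)
  simp only [zero_add] at h4
  refine h4.congr fun n => ?_
  simp only [Function.comp_apply]
  unfold S
  apply Finset.sum_congr rfl
  intro k _
  rw [binomialSeries_apply, c_eq_choose, Complex.ofReal_choose]
  simp

lemma ne_of_lt {x : ℂ} (hx : ‖x‖ < 1) : ∀ t : ℝ, 0 ≤ t → t ≤ 1 → 1 + (t : ℂ) * x ≠ 0 := by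
  intro t ht0 ht1 h
  have h2 : (t : ℂ) * x = -1 := by linear_combination h
  have h3 : ‖(t : ℂ) * x‖ = 1 := by rw [h2]; simp
  rw [norm_mul, Complex.norm_real, Real.norm_eq_abs, abs_of_nonneg ht0] at h3
  have := mul_le_of_le_one_left (norm_nonneg x) ht1
  linarith

lemma F_eq_of_lt {β : ℝ} (h0 : 0 < β) (h1 : β < 1) {x : ℂ} (hx : ‖x‖ < 1) :
    F β x = (1 + x) ^ (β : ℂ) := by
  have h2 : Tendsto (fun n => S β n x + ((β / a β 0 : ℝ) : ℂ) * R β n x) atTop
      (𝓝 ((1 + x) ^ (β : ℂ) + ((β / a β 0 : ℝ) : ℂ) * 0)) := by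
    apply (S_tendsto β hx).add
    apply Tendsto.const_mul
    apply squeeze_zero_norm (norm_R_le_of_lt h0 h1 hx)
    have := (tendsto_pow_atTop_nhds_zero_of_lt_one (norm_nonneg x) hx).comp (tendsto_add_atTop_nat 1)
    have := this.mul_const (a β 0 / (1 - ‖x‖))
    rw [zero_mul] at this
    exact this
  rw [mul_zero, add_zero] at h2
  have h3 : Tendsto (fun _ : ℕ => F β x) atTop (𝓝 (F β x)) := tendsto_const_nhds
  have h4 : (fun n => S β n x + ((β / a β 0 : ℝ) : ℂ) * R β n x) = fun _ : ℕ => F β x := by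
    funext n
    exact S_add_R h0 h1 (ne_of_lt hx) n
  rw [h4] at h2
  exact tendsto_nhds_unique h3 h2

/-- on the unit circle `|1 + s x| ≥ |1 + x| / 2` -/
lemma half_le {x : ℂ} (hx : ‖x‖ = 1) {s : ℝ} (h0 : 0 ≤ s) (h1 : s ≤ 1) :
    ‖1 + x‖ / 2 ≤ ‖1 + (s : ℂ) * x‖ := by
  have e1 : (1 : ℂ) + x = (1 + (s : ℂ) * x) + ((1 - s : ℝ) : ℂ) * x := by push_cast; ring
  have h2 : ‖(1 : ℂ) + x‖ ≤ ‖1 + (s : ℂ) * x‖ + (1 - s) := by
    have h3 := norm_add_le (1 + (s : ℂ) * x) (((1 - s : ℝ) : ℂ) * x)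
    rw [← e1, norm_mul, Complex.norm_real, hx, mul_one, Real.norm_eq_abs,
      abs_of_nonneg (by linarith : (0:ℝ) ≤ 1 - s)] at h3
    exact h3
  have h4 : 1 - s ≤ ‖1 + (s : ℂ) * x‖ := by
    have h5 := norm_sub_le (1 + (s : ℂ) * x) ((s : ℂ) * x)
    rw [add_sub_cancel_right, norm_one, norm_mul, Complex.norm_real, hx, mul_one, Real.norm_eq_abs,
      abs_of_nonneg h0] at h5
    linarith
  linarith

lemma F_eq {β : ℝ} (h0 : 0 < β) (h1 : β < 1) {x : ℂ} (hx : ‖x‖ = 1) (hne : 1 + x ≠ 0) :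
    F β x = (1 + x) ^ (β : ℂ) := by
  -- the sequence `r n x` with `r n → 1`
  set r : ℕ → ℝ := fun n => 1 - 1 / ((n : ℝ) + 2) with hr
  have hr1 : ∀ n, r n < 1 := fun n => by
    have : 0 < 1 / ((n : ℝ) + 2) := by positivity
    simp only [hr]; linarith
  have hr0 : ∀ n, 0 ≤ r n := fun n => by
    have : 1 / ((n : ℝ) + 2) ≤ 1 := by
      rw [div_le_one (by positivity)]
      have : (0 : ℝ) ≤ n := by positivity
      linarith
    simp only [hr]; linarith
  have hlim : Tendsto r atTop (𝓝 1) := by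
    have h2 : Tendsto (fun n : ℕ => 1 / ((n : ℝ) + 2)) atTop (𝓝 0) := by
      have := (tendsto_one_div_add_atTop_nhds_zero_nat (𝕜 := ℝ)).comp (tendsto_add_atTop_nat 1)
      refine this.congr fun n => ?_
      simp only [Function.comp_apply]
      push_cast
      ring
    have h3 := h2.const_sub 1
    rw [sub_zero] at h3
    exact h3
  have hu : 0 < ‖1 + x‖ := norm_pos_iff.2 hne
  have hlimC : Tendsto (fun n => ((r n : ℝ) : ℂ) * x) atTop (𝓝 x) := by
    have h2 : Tendsto (fun n => ((r n : ℝ) : ℂ)) atTop (𝓝 ((1 : ℝ) : ℂ)) :=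
      (Complex.continuous_ofReal.tendsto 1).comp hlim
    have := h2.mul_const x
    simpa using this
  have hlow : ∀ (n : ℕ) (t : ℝ), 0 ≤ t → t ≤ 1 → ‖1 + x‖ / 2 ≤ ‖1 + (t : ℂ) * ((r n : ℂ) * x)‖ := by
    intro n t ht0 ht1
    have := half_le hx (s := t * r n) (mul_nonneg ht0 (hr0 n))
      (mul_le_one₀ ht1 (hr0 n) (hr1 n).le)
    rw [show (t : ℂ) * ((r n : ℂ) * x) = ((t * r n : ℝ) : ℂ) * x by push_cast; ring]
    exact this
  have hne' : ∀ t : ℝ, 0 ≤ t → t ≤ 1 → 1 + (t : ℂ) * x ≠ 0 := by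
    intro t ht0 ht1
    have := half_le hx ht0 ht1
    rw [← norm_pos_iff]
    linarith
  have h2 : Tendsto (fun n => R β 0 ((r n : ℂ) * x)) atTop (𝓝 (R β 0 x)) := by
    unfold R
    apply intervalIntegral.tendsto_integral_filter_of_dominated_convergence
      (fun t => w β t * (2 / ‖1 + x‖))
    · refine Eventually.of_forall fun n => ?_
      have hne2 : ∀ t : ℝ, 0 ≤ t → t ≤ 1 → 1 + (t : ℂ) * ((r n : ℂ) * x) ≠ 0 := by
        intro t ht0 ht1
        rw [← norm_pos_iff]
        linarith [hlow n t ht0 ht1]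
      have := (w_int_mulC h0 h1 (cont_R 0 hne2)).aestronglyMeasurable
      rw [uIoc_of_le zero_le_one]
      exact this
    · refine Eventually.of_forall fun n => Eventually.of_forall fun t ht => ?_
      rw [uIoc_of_le zero_le_one] at ht
      have hw := w_nonneg β ht.1.le ht.2
      rw [norm_mul, Complex.norm_real, Real.norm_eq_abs, abs_of_nonneg hw]
      apply mul_le_mul_of_nonneg_left _ hw
      rw [pow_zero, mul_one, norm_div, norm_mul, Complex.norm_real, hx, mul_one, Real.norm_eq_abs,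
        abs_of_nonneg (hr0 n)]
      rw [div_le_div_iff₀ (by linarith [hlow n t ht.1.le ht.2]) hu]
      have := hlow n t ht.1.le ht.2
      have := (hr1 n).le
      nlinarith
    · exact (w_int h0 h1).mul_const _
    · refine Eventually.of_forall fun t ht => ?_
      rw [uIoc_of_le zero_le_one] at ht
      apply Tendsto.const_mul
      apply Tendsto.div
      · simp only [pow_zero, mul_one]
        exact hlimC
      · exact (hlimC.const_mul _).const_add _
      · exact hne' t ht.1.le ht.2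
  have h3 : Tendsto (fun n => F β ((r n : ℂ) * x)) atTop (𝓝 (F β x)) := by
    unfold F
    exact (h2.const_mul _).const_add _
  have h4 : Tendsto (fun n => F β ((r n : ℂ) * x)) atTop (𝓝 ((1 + x) ^ (β : ℂ))) := by
    have h5 : ∀ n, F β ((r n : ℂ) * x) = (1 + (r n : ℂ) * x) ^ (β : ℂ) := by
      intro n
      apply F_eq_of_lt h0 h1
      rw [norm_mul, Complex.norm_real, hx, mul_one, Real.norm_eq_abs, abs_of_nonneg (hr0 n)]
      exact hr1 n
    simp only [h5]
    have h6 : 1 + x ∈ Complex.slitPlane := by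
      rw [Complex.mem_slitPlane_iff]
      left
      have h7 : -1 ≤ x.re := by
        have := Complex.abs_re_le_norm x
        rw [hx, abs_le] at this
        exact this.1
      rw [Complex.add_re, Complex.one_re]
      rcases h7.lt_or_eq with h8 | h8
      · linarith
      · exfalso
        apply hne
        have h9 : x.re ^ 2 + x.im ^ 2 = 1 := by
          have := Complex.sq_norm x
          rw [hx, Complex.normSq_apply] at this
          nlinarith
        have h10 : x.im = 0 := by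
          rw [← h8] at h9
          nlinarith
        apply Complex.ext
        · simp [← h8]
        · simp [h10]
    have h7 : Tendsto (fun n => 1 + (r n : ℂ) * x) atTop (𝓝 (1 + x)) := hlimC.const_add 1
    exact (h7.cpow tendsto_const_nhds h6)
  exact tendsto_nhds_unique h3 h4

lemma ne_on_circle {x : ℂ} (hx : ‖x‖ = 1) (hne : 1 + x ≠ 0) :
    ∀ t : ℝ, 0 ≤ t → t ≤ 1 → 1 + (t : ℂ) * x ≠ 0 := by
  intro t ht0 ht1
  have := half_le hx ht0 ht1
  have hu : 0 < ‖1 + x‖ := norm_pos_iff.2 hne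
  rw [← norm_pos_iff]
  linarith

/-- the real remainder integral -/
noncomputable def I (β : ℝ) (n : ℕ) (x : ℂ) : ℝ :=
  ∫ t in (0:ℝ)..1, w β t * (t ^ n / ‖1 + (t : ℂ) * x‖)

lemma int_I {β : ℝ} (h0 : 0 < β) (h1 : β < 1) {x : ℂ} (hx : ‖x‖ = 1) (hne : 1 + x ≠ 0) (n : ℕ) :
    IntervalIntegrable (fun t : ℝ => w β t * (t ^ n / ‖1 + (t : ℂ) * x‖)) volume 0 1 := by
  apply w_int_mul h0 h1
  apply ContinuousOn.div
  · fun_prop
  · fun_prop
  · intro t ht
    exact norm_ne_zero_iff.2 (ne_on_circle hx hne t ht.1 ht.2)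

lemma norm_R_le {β : ℝ} (h0 : 0 < β) (h1 : β < 1) {x : ℂ} (hx : ‖x‖ = 1) (hne : 1 + x ≠ 0)
    (n : ℕ) : ‖R β n x‖ ≤ I β n x := by
  unfold R I
  apply intervalIntegral.norm_integral_le_of_norm_le zero_le_one
  · refine Eventually.of_forall fun t ht => ?_
    have hw := w_nonneg β ht.1.le ht.2
    rw [norm_mul, norm_div, norm_mul, norm_pow, norm_neg, norm_mul, Complex.norm_real,
      Complex.norm_real, Real.norm_eq_abs, Real.norm_eq_abs, abs_of_nonneg hw,
      abs_of_nonneg ht.1.le, hx, mul_one, one_mul]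
  · exact int_I h0 h1 hx hne n

lemma S_eq {β : ℝ} (h0 : 0 < β) (h1 : β < 1) {x : ℂ} (hx : ‖x‖ = 1) (hne : 1 + x ≠ 0) (n : ℕ) :
    S β n x = (1 + x) ^ (β : ℂ) - ((β / a β 0 : ℝ) : ℂ) * R β n x := by
  rw [← F_eq h0 h1 hx hne, ← S_add_R h0 h1 (ne_on_circle hx hne) n]
  ring

/-- distance of the partial sum to `(1 + x)^β` -/
lemma S_dist {β : ℝ} (h0 : 0 < β) (h1 : β < 1) {x : ℂ} (hx : ‖x‖ = 1) (hne : 1 + x ≠ 0) (n : ℕ) :
    ‖S β n x - (1 + x) ^ (β : ℂ)‖ ≤ β / a β 0 * I β n x := by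
  rw [S_eq h0 h1 hx hne, sub_sub_cancel_left, norm_neg, norm_mul, Complex.norm_real,
    Real.norm_eq_abs, abs_of_nonneg (by have := a_zero_pos h0 h1; positivity)]
  have := a_zero_pos h0 h1
  exact mul_le_mul_of_nonneg_left (norm_R_le h0 h1 hx hne n) (by positivity)

/-- the value at `1` for odd index -/
lemma S1_odd {β : ℝ} (h0 : 0 < β) (h1 : β < 1) {n : ℕ} (hn : Odd n) :
    S1 β n = 2 ^ β + β / a β 0 * I β n 1 := by
  have h2 := S_eq h0 h1 (x := 1) (by simp) (by norm_num) n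
  have h3 : R β n 1 = -(I β n 1 : ℂ) := by
    unfold R I
    rw [← intervalIntegral.integral_ofReal, ← intervalIntegral.integral_neg]
    apply intervalIntegral.integral_congr
    intro t ht
    rw [uIcc_of_le zero_le_one] at ht
    have h4 : ‖1 + (t : ℂ) * 1‖ = 1 + t := by
      rw [mul_one, show (1 : ℂ) + t = ((1 + t : ℝ) : ℂ) by push_cast; rfl, Complex.norm_real,
        Real.norm_eq_abs, abs_of_nonneg (by linarith [ht.1])]
    simp only [h4]
    push_cast
    rw [mul_one, hn.neg_pow]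
    ring
  rw [h3, S_one_eq] at h2
  have h4 : ((1 : ℂ) + 1) ^ (β : ℂ) = ((2 ^ β : ℝ) : ℂ) := by
    rw [Complex.ofReal_cpow (by norm_num)]
    norm_num
  rw [h4] at h2
  have h5 : ((S1 β n : ℝ) : ℂ) = ((2 ^ β + β / a β 0 * I β n 1 : ℝ) : ℂ) := by
    rw [h2]
    push_cast
    ring
  exact_mod_cast h5

lemma norm_cpow_real (z : ℂ) (hz : z ≠ 0) (β : ℝ) : ‖z ^ (β : ℂ)‖ = ‖z‖ ^ β := by
  rw [Complex.norm_cpow_of_ne_zero hz]
  simp

end Pool.Agent.V8H52.Bran
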