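import Mathlib
import Pool.Agent.V8H52.Bran2

/-!
# Brannan's coefficient conjecture, `β = 1`: the integral inequality
-/

set_option autoImplicit false

namespace Pool.Agent.V8H52.Bran

open MeasureTheory Filter Topology Set

/-- `(1 - t)² + t U²` -/
noncomputable def D (t U : ℝ) : ℝ := (1 - t) ^ 2 + t * U ^ 2

lemma D_pos {t U : ℝ} (ht0 : 0 < t) (hU : 0 < U) : 0 < D t U := by
  unfold D; positivity

/-- the kernel -/
noncomputable def ker (t U : ℝ) : ℝ := t * U / (D t U * √(D t U))

lemma ker_pos {t U : ℝ} (ht0 : 0 < t) (hU : 0 < U) : 0 < ker t U := by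
  have h := D_pos ht0 hU
  have h2 := Real.sqrt_pos.2 h
  unfold ker
  positivity

lemma norm_eq_D {x : ℂ} (hx : ‖x‖ = 1) (t : ℝ) : ‖1 + (t : ℂ) * x‖ = √(D t ‖1 + x‖) := by
  have h1 : x.re ^ 2 + x.im ^ 2 = 1 := by
    have := Complex.sq_norm x
    rw [hx, Complex.normSq_apply] at this
    nlinarith
  have h2 : ‖1 + x‖ ^ 2 = 2 + 2 * x.re := by
    rw [Complex.sq_norm, Complex.normSq_apply]
    simp
    nlinarith
  have h3 : ‖1 + (t : ℂ) * x‖ ^ 2 = D t ‖1 + x‖ := by
    unfold D
    rw [h2, Complex.sq_norm, Complex.normSq_apply]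
    simp
    linear_combination t ^ 2 * h1
  rw [← h3, Real.sqrt_sq (norm_nonneg _)]

/-- the antiderivative of the kernel in `U` -/
lemma int_ker {t u : ℝ} (ht0 : 0 < t) (hu : 0 < u) (hu2 : u ≤ 2) :
    ∫ U in u..2, ker t U = 1 / √(D t u) - 1 / √(D t 2) := by
  have h := intervalIntegral.integral_eq_sub_of_hasDerivAt (a := u) (b := 2)
    (f := fun U => -(√(D t U))⁻¹) (f' := fun U => ker t U) ?_ ?_
  · rw [h]; ring
  · intro U hU
    rw [uIcc_of_le hu2] at hU
    have hU0 : 0 < U := lt_of_lt_of_le hu hU.1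
    have hD := D_pos ht0 hU0
    have hs := Real.sqrt_pos.2 hD
    have d1 : HasDerivAt (fun U => D t U) (t * (2 * U)) U := by
      unfold D
      have := ((hasDerivAt_pow 2 U).const_mul t).const_add ((1 - t) ^ 2)
      refine this.congr_deriv ?_
      norm_num
    have d2 := d1.sqrt hD.ne'
    have d3 := (d2.inv hs.ne').neg
    refine d3.congr_deriv ?_
    unfold ker
    rw [Real.sq_sqrt hD.le]
    field_simp
  · apply ContinuousOn.intervalIntegrable
    rw [uIcc_of_le hu2]
    unfold ker D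
    apply ContinuousOn.div
    · fun_prop
    · fun_prop
    · intro U hU
      have hU0 : 0 < U := lt_of_lt_of_le hu hU.1
      have hD := D_pos ht0 hU0
      have hs := Real.sqrt_pos.2 hD
      unfold D at hD hs
      positivity

/-- the change of variables -/
noncomputable def P (U t : ℝ) : ℝ := 1 - (1 - t) / √(D t U)

lemma P_deriv {t U : ℝ} (ht0 : 0 < t) (hU : 0 < U) :
    HasDerivAt (P U) (U ^ 2 * (1 + t) / 2 / (D t U * √(D t U))) t := by
  have hD := D_pos ht0 hU
  have hs := Real.sqrt_pos.2 hD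
  have d1 : HasDerivAt (fun t => D t U) (-2 * (1 - t) + U ^ 2) t := by
    unfold D
    have h1 : HasDerivAt (fun t : ℝ => 1 - t) (-1) t := by
      simpa using (hasDerivAt_id t).const_sub 1
    have h2 := (h1.pow 2).add ((hasDerivAt_id t).mul_const (U ^ 2))
    refine h2.congr_deriv ?_
    norm_num
  have d2 := d1.sqrt hD.ne'
  have h1 : HasDerivAt (fun t : ℝ => 1 - t) (-1) t := by
    simpa using (hasDerivAt_id t).const_sub 1
  have d3 := (h1.div d2 hs.ne').const_sub 1
  unfold P
  refine d3.congr_deriv ?_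
  have h4 : √(D t U) * √(D t U) = D t U := Real.mul_self_sqrt hD.le
  rw [Real.sq_sqrt hD.le]
  have h5 : D t U = (1 - t) ^ 2 + t * U ^ 2 := rfl
  field_simp
  rw [Real.sq_sqrt hD.le, h5]
  ring

lemma P_mem {t U : ℝ} (ht0 : 0 < t) (ht1 : t < 1) (hU : 0 < U) : P U t ∈ Ioo (0 : ℝ) 1 := by
  have hD := D_pos ht0 hU
  have hs := Real.sqrt_pos.2 hD
  have h1 : (1 - t) / √(D t U) < 1 := by
    rw [div_lt_one hs]
    apply Real.lt_sqrt_of_sq_lt
    unfold D
    have : 0 < t * U ^ 2 := by positivity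
    linarith
  have h2 : 0 < (1 - t) / √(D t U) := by
    have : 0 < 1 - t := by linarith
    positivity
  unfold P
  constructor <;> linarith

/-- the pointwise inequality -/
lemma pointwise {β : ℝ} (h0 : 0 < β) (h1 : β < 1) (m : ℕ) {t U : ℝ} (ht0 : 0 < t) (ht1 : t < 1)
    (hU : 0 < U) :
    w β t * t ^ m * ker t U ≤
      U ^ (β - 1) * (U ^ 2 * (1 + t) / 2 / (D t U * √(D t U)) * w β (P U t)) := by
  have hD := D_pos ht0 hU
  have hs := Real.sqrt_pos.2 hD
  have ht : 0 < 1 - t := by linarith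
  have hst := Real.sqrt_pos.2 ht0
  have hst1 : √t ≤ 1 := Real.sqrt_le_one.2 ht1.le
  obtain ⟨hP0, hP1⟩ := P_mem ht0 ht1 hU
  -- lower bound for the weight
  have hq : P U t ≤ U * √t / √(D t U) := by
    unfold P
    rw [le_div_iff₀ hs, sub_mul, one_mul, div_mul_cancel₀ _ hs.ne', sub_le_iff_le_add]
    apply Real.sqrt_le_iff.2
    constructor
    · positivity
    · unfold D
      have := Real.sq_sqrt ht0.le
      nlinarith [mul_pos (mul_pos hU hst) ht]
  have hw : (U * √t / √(D t U)) ^ (-β) * ((1 - t) / √(D t U)) ^ β ≤ w β (P U t) := by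
    unfold w
    have e : 1 - P U t = (1 - t) / √(D t U) := by unfold P; ring
    rw [e]
    apply mul_le_mul_of_nonneg_right _ (by positivity)
    exact Real.rpow_le_rpow_of_nonpos hP0 hq (by linarith)
  have hw2 : (U * √t / √(D t U)) ^ (-β) * ((1 - t) / √(D t U)) ^ β =
      U ^ (-β) * (√t) ^ (-β) * (1 - t) ^ β := by
    rw [Real.div_rpow (by positivity) hs.le, Real.div_rpow ht.le hs.le,
      Real.mul_rpow hU.le hst.le, Real.rpow_neg hs.le]
    have : (√(D t U)) ^ β ≠ 0 := (Real.rpow_pos_of_pos hs _).ne'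
    field_simp
  rw [hw2] at hw
  have hU1 : U ^ (β - 1) * (U ^ 2 * U ^ (-β)) = U := by
    rw [← Real.rpow_natCast U 2, ← Real.rpow_add hU, ← Real.rpow_add hU]
    conv_rhs => rw [← Real.rpow_one U]
    congr 1
    push_cast
    ring
  -- power inequality in t
  have ht2 : t ^ (-β) * t ^ m * t ≤ (√t) ^ (-β) * ((1 + t) / 2) := by
    have e1 : t ^ (-β) * t = (√t) ^ (2 - 2 * β) := by
      rw [← Real.rpow_add_one ht0.ne', Real.sqrt_eq_rpow, ← Real.rpow_mul ht0.le]
      congr 1
      ring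
    have e2 : t ^ m ≤ 1 := pow_le_one₀ ht0.le ht1.le
    have e3 : (√t) ^ (2 - 2 * β) ≤ (√t) ^ (1 - β) :=
      Real.rpow_le_rpow_of_exponent_ge hst hst1 (by linarith)
    have e4 : (√t) ^ (1 - β) = (√t) ^ (-β) * √t := by
      rw [← Real.rpow_add_one hst.ne']
      congr 1
      ring
    have e5 : √t ≤ (1 + t) / 2 := by
      have := Real.sq_sqrt ht0.le
      nlinarith [sq_nonneg (1 - √t)]
    calc t ^ (-β) * t ^ m * t = (t ^ (-β) * t) * t ^ m := by ring
      _ ≤ (t ^ (-β) * t) * 1 := by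
          apply mul_le_mul_of_nonneg_left e2
          have := Real.rpow_pos_of_pos ht0 (-β)
          positivity
      _ = (√t) ^ (2 - 2 * β) := by rw [mul_one, e1]
      _ ≤ (√t) ^ (-β) * √t := e3.trans e4.le
      _ ≤ _ := mul_le_mul_of_nonneg_left e5 (Real.rpow_nonneg hst.le _)
  have hDD : 0 < D t U * √(D t U) := by positivity
  calc w β t * t ^ m * ker t U
      = (t ^ (-β) * t ^ m * t) * ((1 - t) ^ β * U / (D t U * √(D t U))) := by
        unfold w ker; ring
    _ ≤ ((√t) ^ (-β) * ((1 + t) / 2)) * ((1 - t) ^ β * U / (D t U * √(D t U))) := by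
        apply mul_le_mul_of_nonneg_right ht2
        have := Real.rpow_pos_of_pos ht β
        positivity
    _ = ((√t) ^ (-β) * ((1 + t) / 2)) * ((1 - t) ^ β * (U ^ (β - 1) * (U ^ 2 * U ^ (-β))) /
          (D t U * √(D t U))) := by rw [hU1]
    _ = U ^ (β - 1) * (U ^ 2 * (1 + t) / 2 / (D t U * √(D t U)) *
          (U ^ (-β) * (√t) ^ (-β) * (1 - t) ^ β)) := by ring
    _ ≤ _ := by
        apply mul_le_mul_of_nonneg_left _ (Real.rpow_nonneg hU.le _)
        apply mul_le_mul_of_nonneg_left hw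
        positivity

lemma P_inj {U : ℝ} (hU : 0 < U) : InjOn (P U) (Ioo (0:ℝ) 1) := by
  apply StrictMonoOn.injOn
  apply strictMonoOn_of_deriv_pos (convex_Ioo 0 1)
  · intro t ht
    exact (P_deriv ht.1 hU).continuousAt.continuousWithinAt
  · intro t ht
    rw [interior_Ioo] at ht
    rw [(P_deriv ht.1 hU).deriv]
    have hD := D_pos ht.1 hU
    have hs := Real.sqrt_pos.2 hD
    have := ht.1
    positivity

lemma lint_w {β : ℝ} (h0 : 0 < β) (h1 : β < 1) :
    ∫⁻ t in Ioo (0:ℝ) 1, ENNReal.ofReal (w β t) = ENNReal.ofReal (a β 0) := by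
  have e : a β 0 = ∫ t in Ioo (0:ℝ) 1, w β t := by
    unfold a
    rw [intervalIntegral.integral_of_le zero_le_one, integral_Ioc_eq_integral_Ioo]
    simp
  rw [e, ofReal_integral_eq_lintegral_ofReal]
  · have := w_int h0 h1
    rw [intervalIntegrable_iff_integrableOn_Ioo_of_le zero_le_one] at this
    exact this
  · rw [EventuallyLE, ae_restrict_iff' measurableSet_Ioo]
    exact Eventually.of_forall fun t ht => w_nonneg β ht.1.le ht.2.le

/-- inner integral -/
lemma inner_bound {β : ℝ} (h0 : 0 < β) (h1 : β < 1) (m : ℕ) {U : ℝ} (hU : 0 < U) :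
    ∫⁻ t in Ioo (0:ℝ) 1, ENNReal.ofReal (w β t * t ^ m * ker t U) ≤
      ENNReal.ofReal (U ^ (β - 1) * a β 0) := by
  have hUp := Real.rpow_pos_of_pos hU (β - 1)
  calc ∫⁻ t in Ioo (0:ℝ) 1, ENNReal.ofReal (w β t * t ^ m * ker t U)
      ≤ ∫⁻ t in Ioo (0:ℝ) 1, ENNReal.ofReal (U ^ (β - 1)) *
          (ENNReal.ofReal |U ^ 2 * (1 + t) / 2 / (D t U * √(D t U))| *
            ENNReal.ofReal (w β (P U t))) := by
        apply setLIntegral_mono' measurableSet_Ioo
        intro t ht
        have hD := D_pos ht.1 hU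
        have hs := Real.sqrt_pos.2 hD
        have ht0 := ht.1
        rw [abs_of_nonneg (by positivity), ← ENNReal.ofReal_mul (by positivity),
          ← ENNReal.ofReal_mul hUp.le]
        exact ENNReal.ofReal_le_ofReal (pointwise h0 h1 m ht.1 ht.2 hU)
    _ = ENNReal.ofReal (U ^ (β - 1)) * ∫⁻ t in Ioo (0:ℝ) 1,
          (ENNReal.ofReal |U ^ 2 * (1 + t) / 2 / (D t U * √(D t U))| *
            ENNReal.ofReal (w β (P U t))) := by
        rw [lintegral_const_mul']
        exact ENNReal.ofReal_ne_top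
    _ = ENNReal.ofReal (U ^ (β - 1)) * ∫⁻ s in P U '' Ioo (0:ℝ) 1, ENNReal.ofReal (w β s) := by
        rw [lintegral_image_eq_lintegral_abs_deriv_mul measurableSet_Ioo
          (fun t ht => (P_deriv ht.1 hU).hasDerivWithinAt) (P_inj hU)]
    _ ≤ ENNReal.ofReal (U ^ (β - 1)) * ∫⁻ s in Ioo (0:ℝ) 1, ENNReal.ofReal (w β s) := by
        gcongr
        rintro _ ⟨t, ht, rfl⟩
        exact P_mem ht.1 ht.2 hU
    _ = _ := by
        rw [lint_w h0 h1, ← ENNReal.ofReal_mul hUp.le]

lemma measurable_kernel (β : ℝ) (m : ℕ) :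
    Measurable (fun q : ℝ × ℝ => ENNReal.ofReal (w β q.1 * q.1 ^ m * ker q.1 q.2)) := by
  unfold w ker D
  fun_prop

/-- **The integral inequality.** -/
lemma main_ineq {β : ℝ} (h0 : 0 < β) (h1 : β < 1) {x : ℂ} (hx : ‖x‖ = 1) (hne : 1 + x ≠ 0)
    (m : ℕ) : I β m x - I β m 1 ≤ a β 0 * ((2 ^ β - ‖1 + x‖ ^ β) / β) := by
  set u := ‖1 + x‖ with hu
  have hu0 : 0 < u := norm_pos_iff.2 hne
  have hu2 : u ≤ 2 := by
    have := norm_add_le (1 : ℂ) x
    rw [norm_one, hx] at this
    linarith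
  have hn1 : ‖(1 : ℂ) + 1‖ = 2 := by norm_num
  have h1ne : (1 : ℂ) + 1 ≠ 0 := by norm_num
  have e1 : I β m x - I β m 1 = ∫ t in Ioo (0:ℝ) 1, w β t * t ^ m * ∫ U in u..2, ker t U := by
    unfold I
    rw [← intervalIntegral.integral_sub (int_I h0 h1 hx hne m) (int_I h0 h1 (by simp) h1ne m),
      intervalIntegral.integral_of_le zero_le_one, integral_Ioc_eq_integral_Ioo]
    apply setIntegral_congr_fun measurableSet_Ioo
    intro t ht
    simp only
    rw [int_ker ht.1 hu0 hu2, norm_eq_D hx, norm_eq_D (x := 1) (by simp), hn1]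
    ring
  have hnn : ∀ t ∈ Ioo (0:ℝ) 1, 0 ≤ w β t * t ^ m * ∫ U in u..2, ker t U := by
    intro t ht
    have h2 := w_nonneg β ht.1.le ht.2.le
    have h3 : 0 ≤ t ^ m := pow_nonneg ht.1.le m
    have h4 : 0 ≤ ∫ U in u..2, ker t U := by
      apply intervalIntegral.integral_nonneg hu2
      intro U hU
      exact (ker_pos ht.1 (hu0.trans_le hU.1)).le
    positivity
  have hb : 0 ≤ a β 0 * ((2 ^ β - u ^ β) / β) := by
    have h2 := a_zero_pos h0 h1
    have h3 : u ^ β ≤ 2 ^ β := Real.rpow_le_rpow hu0.le hu2 h0.le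
    have h4 : 0 ≤ 2 ^ β - u ^ β := by linarith
    positivity
  rw [e1]
  by_cases hint : IntegrableOn (fun t => w β t * t ^ m * ∫ U in u..2, ker t U) (Ioo (0:ℝ) 1)
  swap
  · rw [integral_undef hint]
    exact hb
  rw [← ENNReal.ofReal_le_ofReal_iff hb, ofReal_integral_eq_lintegral_ofReal hint (by
    rw [EventuallyLE, ae_restrict_iff' measurableSet_Ioo]
    exact Eventually.of_forall hnn)]
  calc ∫⁻ t in Ioo (0:ℝ) 1, ENNReal.ofReal (w β t * t ^ m * ∫ U in u..2, ker t U)
      = ∫⁻ t in Ioo (0:ℝ) 1, ∫⁻ U in Ioc u 2, ENNReal.ofReal (w β t * t ^ m * ker t U) := by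
        apply setLIntegral_congr_fun measurableSet_Ioo
        intro t ht
        simp only
        have hcont : ContinuousOn (fun U => ker t U) (Icc u 2) := by
          unfold ker D
          apply ContinuousOn.div
          · fun_prop
          · fun_prop
          · intro U hU
            have hU0 : 0 < U := lt_of_lt_of_le hu0 hU.1
            have hD := D_pos ht.1 hU0
            have hs := Real.sqrt_pos.2 hD
            unfold D at hD hs
            positivity
        rw [← intervalIntegral.integral_const_mul, intervalIntegral.integral_of_le hu2,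
          ofReal_integral_eq_lintegral_ofReal]
        · have h2 : IntegrableOn (fun U => w β t * t ^ m * ker t U) (Icc u 2) :=
            (continuousOn_const.mul hcont).integrableOn_Icc
          exact h2.mono_set Ioc_subset_Icc_self
        · rw [EventuallyLE, ae_restrict_iff' measurableSet_Ioc]
          refine Eventually.of_forall fun U hU => ?_
          have h2 := w_nonneg β ht.1.le ht.2.le
          have h3 : 0 ≤ t ^ m := pow_nonneg ht.1.le m
          have h4 := (ker_pos ht.1 (hu0.trans hU.1)).le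
          simp only [Pi.zero_apply]
          positivity
    _ = ∫⁻ U in Ioc u 2, ∫⁻ t in Ioo (0:ℝ) 1, ENNReal.ofReal (w β t * t ^ m * ker t U) := by
        apply lintegral_lintegral_swap
        exact (measurable_kernel β m).aemeasurable
    _ ≤ ∫⁻ U in Ioc u 2, ENNReal.ofReal (U ^ (β - 1) * a β 0) := by
        apply setLIntegral_mono' measurableSet_Ioc
        intro U hU
        exact inner_bound h0 h1 m (hu0.trans hU.1)
    _ = ENNReal.ofReal (a β 0 * ((2 ^ β - u ^ β) / β)) := by
        have e2 : ∫ U in u..2, U ^ (β - 1) * a β 0 = a β 0 * ((2 ^ β - u ^ β) / β) := by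
          rw [intervalIntegral.integral_mul_const, integral_rpow (Or.inl (by linarith))]
          rw [show β - 1 + 1 = β by ring]
          ring
        rw [← e2, intervalIntegral.integral_of_le hu2, ofReal_integral_eq_lintegral_ofReal]
        · have h2 : IntervalIntegrable (fun U : ℝ => U ^ (β - 1) * a β 0) volume u 2 :=
            (intervalIntegral.intervalIntegrable_rpow' (by linarith)).mul_const _
          rw [intervalIntegrable_iff_integrableOn_Ioc_of_le hu2] at h2
          exact h2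
        · rw [EventuallyLE, ae_restrict_iff' measurableSet_Ioc]
          refine Eventually.of_forall fun U hU => ?_
          have h2 := a_zero_pos h0 h1
          have h3 := Real.rpow_nonneg (hu0.trans hU.1).le (β - 1)
          simp only [Pi.zero_apply]
          positivity

/-- Brannan's inequality for `0 < β < 1` and odd index. -/
lemma odd_case {β : ℝ} (h0 : 0 < β) (h1 : β < 1) {x : ℂ} (hx : ‖x‖ = 1) (hne : 1 + x ≠ 0)
    {m : ℕ} (hm : Odd m) : ‖S β m x‖ ≤ S1 β m := by
  have hA := a_zero_pos h0 h1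
  have h2 := S_dist h0 h1 hx hne m
  have h3 := main_ineq h0 h1 hx hne m
  rw [S1_odd h0 h1 hm]
  have h4 : ‖S β m x‖ ≤ ‖S β m x - (1 + x) ^ (β : ℂ)‖ + ‖(1 + x) ^ (β : ℂ)‖ := by
    have := norm_add_le (S β m x - (1 + x) ^ (β : ℂ)) ((1 + x) ^ (β : ℂ))
    rwa [sub_add_cancel] at this
  rw [norm_cpow_real _ hne] at h4
  have h5 : β / a β 0 * (I β m x - I β m 1) ≤ 2 ^ β - ‖1 + x‖ ^ β := by
    calc β / a β 0 * (I β m x - I β m 1)
        ≤ β / a β 0 * (a β 0 * ((2 ^ β - ‖1 + x‖ ^ β) / β)) :=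
          mul_le_mul_of_nonneg_left h3 (by positivity)
      _ = _ := by field_simp
  linarith

end Pool.Agent.V8H52.Bran
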