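import Mathlib
import Pool.Agent.V8H52.Bran3

/-!
# Brannan's coefficient conjecture, `β = 1`: the case `α ≥ 1` and the final statement
-/

set_option autoImplicit false

namespace Pool.Agent.V8H52.Bran

open MeasureTheory Filter Topology Set

lemma S1_succ (α : ℝ) (n : ℕ) : S1 α (n + 1) = S1 α n + c α (n + 1) := by
  unfold S1
  rw [Finset.sum_range_succ]

lemma S1_ge {β : ℝ} (h0 : 0 ≤ β) (h1 : β ≤ 1) (n : ℕ) :
    1 ≤ S1 β (2 * n) ∧ 1 ≤ S1 β (2 * n + 1) := by
  have key : ∀ n : ℕ, 1 ≤ S1 β (2 * n) → 1 + |c β (2 * n + 1)| ≤ S1 β (2 * n + 1) := by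
    intro n h
    rw [S1_succ, abs_c h0 h1, c_abs, pow_mul]
    norm_num
    linarith
  have hmain : ∀ n : ℕ, 1 ≤ S1 β (2 * n) := by
    intro n
    induction n with
    | zero => simp [S1, c_zero]
    | succ n ih =>
      have h2 := key n ih
      rw [show 2 * (n + 1) = 2 * n + 1 + 1 by ring, S1_succ]
      have h3 : c β (2 * n + 1 + 1) = -|c β (2 * n + 1 + 1)| := by
        rw [abs_c h0 h1, c_abs, pow_succ, pow_mul]
        norm_num
      rw [h3]
      have h4 : |c β (2 * n + 1 + 1)| ≤ |c β (2 * n + 1)| := by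
        rw [c_succ, abs_mul]
        apply mul_le_of_le_one_right (abs_nonneg _)
        rw [abs_div, div_le_one (by positivity)]
        rw [abs_le, abs_of_nonneg (by positivity)]
        push_cast
        have : (0 : ℝ) ≤ n := by positivity
        constructor <;> linarith
      linarith
  exact ⟨hmain n, by
    have h2 := key n (hmain n)
    have := abs_nonneg (c β (2 * n + 1))
    linarith⟩

lemma S1_ge' {β : ℝ} (h0 : 0 ≤ β) (h1 : β ≤ 1) (n : ℕ) : 1 ≤ S1 β n := by
  rcases Nat.even_or_odd' n with ⟨k, hk | hk⟩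
  · rw [hk]; exact (S1_ge h0 h1 k).1
  · rw [hk]; exact (S1_ge h0 h1 k).2

lemma S_neg_one (β : ℝ) (n : ℕ) : S β n (-1) = (p β n : ℂ) := by
  induction n with
  | zero => simp [S_zero, p]
  | succ n ih =>
    rw [S_succ, ih, p_succ, c_abs]
    push_cast
    rw [pow_succ (-1 : ℂ) n]
    have h : ((-1 : ℂ) ^ n) * (-1) ^ n = 1 := by
      rw [← pow_add, ← two_mul, pow_mul]; norm_num
    linear_combination (-(p β n : ℂ) * (β / (n + 1))) * h

lemma p_le_one {β : ℝ} (h0 : 0 ≤ β) (h1 : β ≤ 1) (n : ℕ) : p β n ≤ 1 := by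
  rcases n with _ | n
  · simp [p]
  · have := p_le h0 h1 n
    linarith

lemma abs_sin_nat (n : ℕ) (θ : ℝ) : |Real.sin (n * θ)| ≤ n * |Real.sin θ| := by
  induction n with
  | zero => simp
  | succ n ih =>
    push_cast
    rw [add_mul, one_mul, Real.sin_add]
    calc |Real.sin (n * θ) * Real.cos θ + Real.cos (n * θ) * Real.sin θ|
        ≤ |Real.sin (n * θ) * Real.cos θ| + |Real.cos (n * θ) * Real.sin θ| := abs_add_le _ _
      _ ≤ |Real.sin (n * θ)| * 1 + 1 * |Real.sin θ| := by
          rw [abs_mul, abs_mul]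
          exact add_le_add (mul_le_mul_of_nonneg_left (Real.abs_cos_le_one _) (abs_nonneg _))
            (mul_le_mul_of_nonneg_right (Real.abs_cos_le_one _) (abs_nonneg _))
      _ ≤ _ := by linarith

/-- derivative of the partial sums -/
lemma S_hasDerivAt (β : ℝ) (n : ℕ) (x : ℂ) :
    HasDerivAt (fun z => S (β + 1) (n + 1) z) (((β + 1 : ℝ) : ℂ) * S β n x) x := by
  have e : (fun z => S (β + 1) (n + 1) z) =
      fun z => (∑ k ∈ Finset.range (n + 1), (c (β + 1) (k + 1) : ℂ) * z ^ (k + 1)) + 1 := by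
    funext z
    unfold S
    rw [Finset.sum_range_succ', c_zero]
    simp
  rw [e]
  have h : HasDerivAt (fun z : ℂ => ∑ k ∈ Finset.range (n + 1), (c (β + 1) (k + 1) : ℂ) * z ^ (k + 1))
      (∑ k ∈ Finset.range (n + 1), (c (β + 1) (k + 1) : ℂ) * (((k + 1 : ℕ) : ℂ) * x ^ (k + 1 - 1))) x := by
    apply HasDerivAt.fun_sum
    intro k _
    exact (hasDerivAt_pow (k + 1) x).const_mul _
  refine (h.add_const 1).congr_deriv ?_
  unfold S
  rw [Finset.mul_sum]
  apply Finset.sum_congr rfl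
  intro k _
  rw [c_succ']
  have : ((k : ℂ) + 1) ≠ 0 := by exact_mod_cast Nat.succ_ne_zero k
  push_cast
  field_simp
  try simp

lemma norm_sq_one_add {x : ℂ} (hx : ‖x‖ = 1) : ‖1 + x‖ ^ 2 = 2 + 2 * x.re := by
  have h1 : x.re ^ 2 + x.im ^ 2 = 1 := by
    have := Complex.sq_norm x
    rw [hx, Complex.normSq_apply] at this
    nlinarith
  rw [Complex.sq_norm, Complex.normSq_apply]
  simp
  nlinarith

/-- lower bound for the even or odd partial sums away from `-1` -/
lemma Q_lower {β : ℝ} (h0 : 0 < β) (h1 : β < 1) {x : ℂ} (hx : ‖x‖ = 1) (hu : 1 ≤ ‖1 + x‖)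
    {n : ℕ} (hn : 1 ≤ n) : 3 / 4 ≤ ‖S β n x‖ := by
  have hne : 1 + x ≠ 0 := by
    rw [← norm_pos_iff]; linarith
  have hA := a_zero_pos h0 h1
  have h2 := S_dist h0 h1 hx hne n
  have h3 : I β n x ≤ 2 * a β n := by
    unfold I a
    rw [← intervalIntegral.integral_const_mul]
    apply intervalIntegral.integral_mono_on zero_le_one (int_I h0 h1 hx hne n)
      ((w_int_mul h0 h1 (by fun_prop)).const_mul _)
    intro t ht
    have hw := w_nonneg β ht.1 ht.2
    have h4 := half_le hx ht.1 ht.2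
    have h5 : t ^ n / ‖1 + (t : ℂ) * x‖ ≤ 2 * t ^ n := by
      rw [div_le_iff₀ (by linarith)]
      have h6 : 0 ≤ t ^ n := pow_nonneg ht.1 n
      nlinarith
    calc w β t * (t ^ n / ‖1 + (t : ℂ) * x‖) ≤ w β t * (2 * t ^ n) :=
          mul_le_mul_of_nonneg_left h5 hw
      _ = _ := by ring
  have h4 : β / a β 0 * I β n x ≤ 2 * |c β (n + 1)| := by
    rw [abs_c_eq h0 h1]
    calc β / a β 0 * I β n x ≤ β / a β 0 * (2 * a β n) :=
          mul_le_mul_of_nonneg_left h3 (by positivity)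
      _ = _ := by ring
  have h5 := abs_c_le h0.le h1.le hn
  have h6 : β * (1 - β) / ((n : ℝ) + 1) ≤ 1 / 8 := by
    rw [div_le_iff₀ (by positivity)]
    have : (1 : ℝ) ≤ n := by exact_mod_cast hn
    nlinarith [sq_nonneg (β - 1 / 2)]
  have h7 : 1 ≤ ‖(1 + x) ^ (β : ℂ)‖ := by
    rw [norm_cpow_real _ hne]
    exact Real.one_le_rpow hu h0.le
  have h8 : ‖(1 + x) ^ (β : ℂ)‖ ≤ ‖S β n x - (1 + x) ^ (β : ℂ)‖ + ‖S β n x‖ := by
    have := norm_sub_le (S β n x) (S β n x - (1 + x) ^ (β : ℂ))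
    rw [sub_sub_cancel] at this
    linarith
  linarith

lemma im_formula (β : ℝ) (n : ℕ) (θ : ℝ) :
    ((starRingEnd ℂ (S (β + 1) (n + 1) (Complex.exp (θ * Complex.I)))) *
      (Complex.exp (θ * Complex.I) * S β n (Complex.exp (θ * Complex.I)))).im =
      ‖S β n (Complex.exp (θ * Complex.I))‖ ^ 2 * Real.sin θ -
        c β (n + 1) * ∑ k ∈ Finset.range (n + 1), c β k * Real.sin (((n - k : ℕ) : ℝ) * θ) := by
  set x := Complex.exp (θ * Complex.I) with hx
  have hxx : starRingEnd ℂ x * x = 1 := by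
    rw [Complex.conj_mul', hx, Complex.norm_exp_ofReal_mul_I]
    simp
  have hxs : starRingEnd ℂ x = Complex.exp (-(θ * Complex.I)) := by
    rw [hx, ← Complex.exp_conj]
    congr 1
    simp
  rw [S_step]
  rw [map_add, map_mul, map_mul, map_pow, map_add, map_one, Complex.conj_ofReal]
  have e1 : ((1 + (starRingEnd ℂ) x) * (starRingEnd ℂ) (S β n x) +
      (c β (n + 1) : ℂ) * (starRingEnd ℂ) x ^ (n + 1)) * (x * S β n x) =
      (x + 1) * ((starRingEnd ℂ) (S β n x) * S β n x) +
        (c β (n + 1) : ℂ) * ((starRingEnd ℂ) x ^ n * S β n x) := by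
    linear_combination ((starRingEnd ℂ) (S β n x) * S β n x +
      (c β (n + 1) : ℂ) * (starRingEnd ℂ) x ^ n * S β n x) * hxx
  rw [e1, Complex.conj_mul']
  have e2 : (starRingEnd ℂ) x ^ n * S β n x =
      ∑ k ∈ Finset.range (n + 1), (c β k : ℂ) * Complex.exp (-(((n - k : ℕ) : ℝ) * θ : ℝ) * Complex.I) := by
    unfold S
    rw [Finset.mul_sum]
    apply Finset.sum_congr rfl
    intro k hk
    have hk' : k ≤ n := by have := Finset.mem_range.1 hk; omega
    have e3 : (starRingEnd ℂ) x ^ n * x ^ k = (starRingEnd ℂ) x ^ (n - k) := by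
      conv_lhs => rw [← Nat.sub_add_cancel hk', pow_add]
      rw [mul_assoc, ← mul_pow, hxx, one_pow, mul_one]
    rw [mul_left_comm, e3, hxs, ← Complex.exp_nat_mul]
    congr 2
    push_cast
    ring
  rw [e2, Complex.add_im]
  congr 1
  · have e4 : (x + 1) * ((‖S β n x‖ : ℂ)) ^ 2 = (x + 1) * ((‖S β n x‖ ^ 2 : ℝ) : ℂ) := by
      push_cast; rfl
    rw [e4, Complex.im_mul_ofReal, Complex.add_im, Complex.one_im, add_zero, hx,
      Complex.exp_ofReal_mul_I_im]
    ring
  · rw [Complex.im_ofReal_mul, Complex.im_sum, ← neg_one_mul (c β (n + 1) * _), mul_left_comm]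
    congr 1
    rw [Finset.mul_sum]
    apply Finset.sum_congr rfl
    intro k _
    rw [Complex.im_ofReal_mul]
    have e5 : (Complex.exp (-(((n - k : ℕ) : ℝ) * θ : ℝ) * Complex.I)).im =
        -Real.sin (((n - k : ℕ) : ℝ) * θ) := by
      rw [← Complex.ofReal_neg, Complex.exp_ofReal_mul_I_im, Real.sin_neg]
    rw [e5]
    ring

/-- the derivative of the squared modulus is nonpositive where `|1 + x| ≥ 1` -/
lemma deriv_nonpos {β : ℝ} (h0 : 0 < β) (h1 : β < 1) {n : ℕ} (hn : 1 ≤ n) {θ : ℝ}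
    (hθ0 : 0 ≤ θ) (hθπ : θ ≤ Real.pi) (hc : -1 / 2 ≤ Real.cos θ) :
    0 ≤ ((starRingEnd ℂ (S (β + 1) (n + 1) (Complex.exp (θ * Complex.I)))) *
      (Complex.exp (θ * Complex.I) * S β n (Complex.exp (θ * Complex.I)))).im := by
  rw [im_formula]
  set x := Complex.exp (θ * Complex.I) with hx
  have hxn : ‖x‖ = 1 := by rw [hx, Complex.norm_exp_ofReal_mul_I]
  have hu : 1 ≤ ‖1 + x‖ := by
    have h2 := norm_sq_one_add hxn
    have h3 : x.re = Real.cos θ := by rw [hx, Complex.exp_ofReal_mul_I_re]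
    rw [h3] at h2
    nlinarith [norm_nonneg (1 + x)]
  have hQ := Q_lower h0 h1 hxn hu hn
  have hs : 0 ≤ Real.sin θ := Real.sin_nonneg_of_nonneg_of_le_pi hθ0 hθπ
  have hsum : |∑ k ∈ Finset.range (n + 1), c β k * Real.sin (((n - k : ℕ) : ℝ) * θ)| ≤
      2 * n * Real.sin θ := by
    calc |∑ k ∈ Finset.range (n + 1), c β k * Real.sin (((n - k : ℕ) : ℝ) * θ)|
        ≤ ∑ k ∈ Finset.range (n + 1), |c β k * Real.sin (((n - k : ℕ) : ℝ) * θ)| :=
          Finset.abs_sum_le_sum_abs _ _
      _ ≤ ∑ k ∈ Finset.range (n + 1), |c β k| * (n * Real.sin θ) := by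
          apply Finset.sum_le_sum
          intro k _
          rw [abs_mul]
          apply mul_le_mul_of_nonneg_left _ (abs_nonneg _)
          refine (abs_sin_nat _ _).trans ?_
          rw [abs_of_nonneg hs]
          apply mul_le_mul_of_nonneg_right _ hs
          exact_mod_cast Nat.sub_le n k
      _ = (2 - p β n) * (n * Real.sin θ) := by
          rw [← Finset.sum_mul, sum_abs_c h0.le h1.le]
      _ ≤ 2 * (n * Real.sin θ) := by
          apply mul_le_mul_of_nonneg_right _ (by positivity)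
          have := p_nonneg h1.le n
          linarith
      _ = _ := by ring
  have hcc := abs_c_le h0.le h1.le hn
  have hprod : c β (n + 1) * ∑ k ∈ Finset.range (n + 1), c β k * Real.sin (((n - k : ℕ) : ℝ) * θ) ≤
      1 / 2 * Real.sin θ := by
    refine (le_abs_self _).trans ?_
    rw [abs_mul]
    calc |c β (n + 1)| * |∑ k ∈ Finset.range (n + 1), c β k * Real.sin (((n - k : ℕ) : ℝ) * θ)|
        ≤ (β * (1 - β) / ((n : ℝ) + 1)) * (2 * n * Real.sin θ) :=
          mul_le_mul hcc hsum (abs_nonneg _) (by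
            have : 0 ≤ 1 - β := by linarith
            positivity)
      _ = (2 * (β * (1 - β)) * (n / ((n : ℝ) + 1))) * Real.sin θ := by ring
      _ ≤ 1 / 2 * Real.sin θ := by
          apply mul_le_mul_of_nonneg_right _ hs
          have h5 : (n : ℝ) / ((n : ℝ) + 1) ≤ 1 := by
            rw [div_le_one (by positivity)]; linarith
          have h6 : β * (1 - β) ≤ 1 / 4 := by nlinarith [sq_nonneg (β - 1 / 2)]
          have h7 : 0 ≤ β * (1 - β) := mul_nonneg h0.le (by linarith)
          have h8 : 0 ≤ (n : ℝ) / ((n : ℝ) + 1) := by positivity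
          nlinarith
  have hQ2 : 1 / 2 * Real.sin θ ≤ ‖S β n x‖ ^ 2 * Real.sin θ := by
    apply mul_le_mul_of_nonneg_right _ hs
    nlinarith
  linarith

lemma S_conj (α : ℝ) (n : ℕ) (x : ℂ) : S α n (starRingEnd ℂ x) = starRingEnd ℂ (S α n x) := by
  unfold S
  rw [map_sum]
  apply Finset.sum_congr rfl
  intro k _
  rw [map_mul, map_pow, Complex.conj_ofReal]

/-- monotonicity along the arc -/
lemma arc {β : ℝ} (h0 : 0 < β) (h1 : β < 1) {n : ℕ} (hn : 1 ≤ n) {θ : ℝ}
    (hθ0 : 0 ≤ θ) (hθπ : θ ≤ Real.pi) (hc : -1 / 2 ≤ Real.cos θ) :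
    ‖S (β + 1) (n + 1) (Complex.exp (θ * Complex.I))‖ ≤ S1 (β + 1) (n + 1) := by
  have hd : ∀ φ : ℝ, HasDerivAt (fun φ : ℝ => ‖S (β + 1) (n + 1) (Complex.exp (φ * Complex.I))‖ ^ 2)
      (2 * inner ℝ (S (β + 1) (n + 1) (Complex.exp (φ * Complex.I)))
        (((β + 1 : ℝ) : ℂ) * S β n (Complex.exp (φ * Complex.I)) *
          (Complex.exp (φ * Complex.I) * Complex.I))) φ := by
    intro φ
    have d1 : HasDerivAt (fun φ : ℝ => Complex.exp (φ * Complex.I))
        (Complex.exp (φ * Complex.I) * Complex.I) φ := by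
      have h2 : HasDerivAt (fun φ : ℝ => (φ : ℂ) * Complex.I) (1 * Complex.I) φ :=
        (Complex.ofRealCLM.hasDerivAt (x := φ)).mul_const _
      have h3 := h2.cexp
      rw [one_mul] at h3
      exact h3
    have d2 := (S_hasDerivAt β n (Complex.exp (φ * Complex.I))).comp φ d1
    exact d2.norm_sq
  have hanti : AntitoneOn (fun φ : ℝ => ‖S (β + 1) (n + 1) (Complex.exp (φ * Complex.I))‖ ^ 2)
      (Icc 0 θ) := by
    apply antitoneOn_of_deriv_nonpos (convex_Icc 0 θ)
    · intro φ _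
      exact (hd φ).continuousAt.continuousWithinAt
    · intro φ _
      exact (hd φ).differentiableAt.differentiableWithinAt
    · intro φ hφ
      rw [interior_Icc] at hφ
      rw [(hd φ).deriv, Complex.inner]
      have h2 : -1 / 2 ≤ Real.cos φ :=
        hc.trans (Real.cos_le_cos_of_nonneg_of_le_pi hφ.1.le hθπ hφ.2.le)
      have h3 := deriv_nonpos h0 h1 hn hφ.1.le (hφ.2.le.trans hθπ) h2
      have e : (((β + 1 : ℝ) : ℂ) * S β n (Complex.exp (φ * Complex.I)) *
          (Complex.exp (φ * Complex.I) * Complex.I)) *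
            starRingEnd ℂ (S (β + 1) (n + 1) (Complex.exp (φ * Complex.I))) =
          ((β + 1 : ℝ) : ℂ) * ((((starRingEnd ℂ (S (β + 1) (n + 1) (Complex.exp (φ * Complex.I)))) *
            (Complex.exp (φ * Complex.I) * S β n (Complex.exp (φ * Complex.I)))))
              * Complex.I) := by ring
      rw [e]
      rw [Complex.re_ofReal_mul, Complex.mul_I_re]
      nlinarith
  have h2 := hanti (left_mem_Icc.2 hθ0) (right_mem_Icc.2 hθ0) hθ0
  simp only [Complex.ofReal_zero, zero_mul, Complex.exp_zero] at h2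
  rw [S_one_eq, Complex.norm_real, Real.norm_eq_abs, sq_abs] at h2
  have h3 : 0 ≤ S1 (β + 1) (n + 1) := by
    have h4 : S1 (β + 1) (n + 1) = S1 β (n + 1) + S1 β n := by
      have := S_pascal β n 1
      rw [S_one_eq, S_one_eq, S_one_eq, one_mul] at this
      exact_mod_cast this
    rw [h4]
    have h5 := S1_ge' h0.le h1.le (n + 1)
    have h6 := S1_ge' h0.le h1.le n
    linarith
  exact abs_le_of_sq_le_sq' h2 h3 |>.2

/-- the case `1 < α < 2`, all indices -/
lemma mid_case {β : ℝ} (h0 : 0 < β) (h1 : β < 1) (n : ℕ) {x : ℂ} (hx : ‖x‖ = 1) :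
    ‖S (β + 1) n x‖ ≤ S1 (β + 1) n := by
  rcases n with _ | n
  · simp [S_zero, S1, c_zero]
  rcases Nat.eq_zero_or_pos n with hn | hn
  · subst hn
    have e : S (β + 1) (0 + 1) x = 1 + ((β + 1 : ℝ) : ℂ) * x := by
      rw [S_succ, S_zero, zero_add, c_one, pow_one]
    have e2 : S1 (β + 1) (0 + 1) = 1 + (β + 1) := by
      rw [S1_succ, zero_add, c_one]; simp [S1, c_zero]
    rw [e, e2]
    refine (norm_add_le _ _).trans ?_
    rw [norm_one, norm_mul, hx, mul_one, Complex.norm_real, Real.norm_eq_abs,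
      abs_of_nonneg (by linarith)]
  have hS1 : S1 (β + 1) (n + 1) = 2 * S1 β n + c β (n + 1) := by
    have := S_step β n 1
    rw [S_one_eq, S_one_eq, one_pow, mul_one] at this
    have h2 : ((S1 (β + 1) (n + 1) : ℝ) : ℂ) = ((2 * S1 β n + c β (n + 1) : ℝ) : ℂ) := by
      rw [this]; push_cast; ring
    exact_mod_cast h2
  rcases le_total ‖1 + x‖ 1 with hu | hu
  · -- close to `-1`
    have h2 := norm_S_le h0.le h1.le n hx
    have h3 := S1_ge' h0.le h1.le n
    have h4 := abs_c (β := β) h0.le h1.le n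
    have h5 := p_nonneg h1.le n
    have h6 : p β n * (β / ((n : ℝ) + 1)) ≤ p β n * (1 / 2) := by
      apply mul_le_mul_of_nonneg_left _ h5
      rw [div_le_div_iff₀ (by positivity) (by norm_num)]
      have : (1 : ℝ) ≤ n := by exact_mod_cast hn
      nlinarith
    have h7 := neg_abs_le (c β (n + 1))
    rw [S_step, hS1]
    have h8 : ‖(1 + x) * S β n x + (c β (n + 1) : ℂ) * x ^ (n + 1)‖ ≤
        ‖S β n x‖ + |c β (n + 1)| := by
      refine (norm_add_le _ _).trans ?_
      rw [norm_mul, norm_mul, norm_pow, hx, one_pow, mul_one, Complex.norm_real, Real.norm_eq_abs]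
      have := mul_le_of_le_one_left (norm_nonneg (S β n x)) hu
      linarith
    linarith
  · -- away from `-1`
    have hre : -1 / 2 ≤ x.re := by
      have h2 := norm_sq_one_add hx
      nlinarith
    have hx' : x = Complex.exp (x.arg * Complex.I) := by
      have := Complex.norm_mul_exp_arg_mul_I x
      rw [hx] at this
      simpa using this.symm
    have hcos : Real.cos x.arg = x.re := by
      rw [Complex.cos_arg (by rw [← norm_pos_iff, hx]; norm_num), hx, div_one]
    rcases le_total 0 x.arg with ha | ha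
    · have := arc h0 h1 hn ha (Complex.arg_le_pi x) (by rw [hcos]; exact hre)
      rw [← hx'] at this
      exact this
    · have := arc h0 h1 hn (θ := -x.arg) (by linarith)
        (by have := Complex.neg_pi_lt_arg x; linarith) (by rw [Real.cos_neg, hcos]; exact hre)
      have e : Complex.exp (((-x.arg : ℝ) : ℂ) * Complex.I) = starRingEnd ℂ x := by
        conv_rhs => rw [hx']
        rw [← Complex.exp_conj]
        congr 1
        simp
      rw [e, S_conj, Complex.norm_conj] at this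
      exact this

lemma c_zero_left (k : ℕ) : c 0 (k + 1) = 0 := by
  rw [c_abs]; simp

lemma zero_case (n : ℕ) (x : ℂ) : S 0 n x = 1 ∧ S1 0 n = 1 := by
  induction n with
  | zero => exact ⟨S_zero 0 x, by simp [S1, c_zero]⟩
  | succ n ih =>
    constructor
    · rw [S_succ, ih.1, c_zero_left]; simp
    · rw [S1_succ, ih.2, c_zero_left]; simp

lemma ge_one_case (k : ℕ) : ∀ α : ℝ, (k : ℝ) + 1 ≤ α → α < (k : ℝ) + 2 →
    ∀ (n : ℕ) (x : ℂ), ‖x‖ = 1 → ‖S α n x‖ ≤ S1 α n := by
  induction k with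
  | zero =>
    intro α h1 h2 n x hx
    rcases h1.lt_or_eq with h3 | h3
    · have h4 := mid_case (β := α - 1) (by push_cast at h3; linarith) (by push_cast at h2; linarith) n hx
      rw [sub_add_cancel] at h4
      exact h4
    · have h4 := step_up 0 (fun n x _ => by
        rw [(zero_case n x).1, (zero_case n x).2, norm_one]) n x hx
      have h5 : α = 0 + 1 := by rw [← h3]; push_cast; ring
      rw [h5]
      exact h4
  | succ k ih =>
    intro α h1 h2
    have h3 := step_up (α - 1) (ih (α - 1) (by push_cast at h1; linarith) (by push_cast at h2; linarith))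
    rw [sub_add_cancel] at h3
    exact h3

/-- **Brannan's conjecture for `β = 1`.** -/
theorem main (α : ℝ) (hα : 0 < α) (m : ℕ) (hm : Odd m) (x : ℂ) (hx : ‖x‖ = 1) :
    ‖S α m x‖ ≤ S1 α m := by
  rcases lt_or_ge α 1 with h1 | h1
  · by_cases hne : 1 + x = 0
    · have h2 : x = -1 := by linear_combination hne
      rw [h2, S_neg_one, Complex.norm_real, Real.norm_eq_abs, abs_of_nonneg (p_nonneg h1.le m)]
      exact (p_le_one hα.le h1.le m).trans (S1_ge' hα.le h1.le m)
    · exact odd_case hα h1 hx hne hm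
  · obtain ⟨k, hk⟩ : ∃ k : ℕ, (k : ℝ) + 1 ≤ α ∧ α < (k : ℝ) + 2 := by
      refine ⟨⌊α - 1⌋₊, ?_, ?_⟩
      · have := Nat.floor_le (a := α - 1) (by linarith)
        linarith
      · have := Nat.lt_floor_add_one (α - 1)
        linarith
    exact ge_one_case k α hk.1 hk.2 m x hx

end Pool.Agent.V8H52.Bran
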