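import Mathlib

/-!
A Toeplitz sequence over `{false, true}` built from blocks `u k false`, `u k true` of length `p k`.
-/

set_option autoImplicit false

namespace Pool.Agent.V8H52.TZ

/-- Thue–Morse bits -/
def tm (n : ℕ) : Bool := if h : n = 0 then false else xor (tm (n / 2)) (decide (n % 2 = 1))
termination_by n
decreasing_by exact Nat.div_lt_self (Nat.pos_of_ne_zero h) (by norm_num)

theorem tm_zero : tm 0 = false := by
  rw [tm]; simp

theorem tm_two_mul (a : ℕ) : tm (2 * a) = tm a := by
  by_cases h : a = 0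
  · subst h; rfl
  · rw [tm]
    have h1 : 2 * a ≠ 0 := by omega
    rw [dif_neg h1]
    have h2 : 2 * a / 2 = a := by omega
    rw [h2]
    simp

theorem tm_two_mul_add_one (a : ℕ) : tm (2 * a + 1) = !tm a := by
  rw [tm]
  have h1 : 2 * a + 1 ≠ 0 := by omega
  rw [dif_neg h1]
  have h2 : (2 * a + 1) / 2 = a := by omega
  have h3 : (2 * a + 1) % 2 = 1 := by omega
  rw [h2]
  simp [h3]

theorem tm_one : tm 1 = true := by
  have := tm_two_mul_add_one 0
  simpa [tm_zero] using this

theorem tm_two : tm 2 = true := by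
  have := tm_two_mul 1
  rw [tm_one] at this
  simpa using this

theorem tm_add (j : ℕ) : ∀ m s : ℕ, s < 2 ^ j → tm (m * 2 ^ j + s) = xor (tm m) (tm s) := by
  induction j with
  | zero =>
    intro m s hs
    have : s = 0 := by simpa using hs
    subst this
    simp [tm_zero]
  | succ j ih =>
    intro m s hs
    rcases Nat.even_or_odd' s with ⟨c, hc | hc⟩
    · subst hc
      have h1 : c < 2 ^ j := by rw [pow_succ] at hs; omega
      have h2 : m * 2 ^ (j + 1) + 2 * c = 2 * (m * 2 ^ j + c) := by rw [pow_succ]; ring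
      rw [h2, tm_two_mul, tm_two_mul, ih m c h1]
    · subst hc
      have h1 : c < 2 ^ j := by rw [pow_succ] at hs; omega
      have h2 : m * 2 ^ (j + 1) + (2 * c + 1) = 2 * (m * 2 ^ j + c) + 1 := by rw [pow_succ]; ring
      rw [h2, tm_two_mul_add_one, tm_two_mul_add_one, ih m c h1]
      cases tm m <;> cases tm c <;> rfl

/-- number of sub-blocks -/
def q (k : ℕ) : ℕ := 2 ^ (k + 6) + 2

/-- block lengths -/
def p : ℕ → ℕ
  | 0 => 1
  | k + 1 => q k * p k

theorem p_zero : p 0 = 1 := rfl
theorem p_succ (k : ℕ) : p (k + 1) = q k * p k := rfl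

theorem q_pos (k : ℕ) : 0 < q k := by unfold q; positivity

theorem p_pos : ∀ k, 0 < p k
  | 0 => one_pos
  | k + 1 => Nat.mul_pos (q_pos k) (p_pos k)

theorem q_ge (k : ℕ) : 66 ≤ q k := by
  unfold q
  have : 2 ^ 6 ≤ 2 ^ (k + 6) := Nat.pow_le_pow_right (by norm_num) (by omega)
  omega

theorem lt_p (k : ℕ) : k < p k := by
  induction k with
  | zero => simp [p_zero]
  | succ k ih =>
    rw [p_succ]
    have := q_ge k
    nlinarith

theorem p_le_succ (k : ℕ) : p k ≤ p (k + 1) := by
  rw [p_succ]
  exact Nat.le_mul_of_pos_left _ (q_pos k)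

theorem p_mono : Monotone p := monotone_nat_of_le_succ p_le_succ

theorem p_lt_succ (k : ℕ) : p k < p (k + 1) := by
  rw [p_succ]
  have := q_ge k
  have := p_pos k
  nlinarith

theorem p_strictMono : StrictMono p := strictMono_nat_of_lt_succ p_lt_succ

/-- type of the sub-block `j` in a block of type `e` of level `k + 1` -/
def ty (k : ℕ) (e : Bool) (j : ℕ) : Bool :=
  if j = 0 then false else if j = q k - 1 then true else xor e (tm (j - 1))

theorem ty_zero (k : ℕ) (e : Bool) : ty k e 0 = false := by simp [ty]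

theorem ty_last (k : ℕ) (e : Bool) : ty k e (q k - 1) = true := by
  have := q_ge k
  unfold ty
  rw [if_neg (by omega), if_pos rfl]

theorem ty_mid (k : ℕ) (e : Bool) (j : ℕ) (hj : j < 2 ^ (k + 6)) :
    ty k e (1 + j) = xor e (tm j) := by
  unfold ty
  rw [if_neg (by omega), if_neg (by unfold q; omega)]
  congr 2
  omega

/-- the blocks -/
def u : ℕ → Bool → ℕ → Bool
  | 0, e, _ => e
  | k + 1, e, i => u k (ty k e (i / p k)) (i % p k)

theorem u_zero (e : Bool) (i : ℕ) : u 0 e i = e := rfl

theorem u_succ (k : ℕ) (e : Bool) (j o : ℕ) (ho : o < p k) :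
    u (k + 1) e (j * p k + o) = u k (ty k e j) o := by
  change u k (ty k e ((j * p k + o) / p k)) ((j * p k + o) % p k) = _
  have h1 : (j * p k + o) / p k = j := by
    rw [add_comm, Nat.add_mul_div_right _ _ (p_pos k), Nat.div_eq_of_lt ho, zero_add]
  have h2 : (j * p k + o) % p k = o := by
    rw [add_comm, Nat.add_mul_mod_self_right, Nat.mod_eq_of_lt ho]
  rw [h1, h2]

theorem u_left (k : ℕ) (e : Bool) (o : ℕ) (ho : o < p k) : u (k + 1) e o = u k false o := by
  have := u_succ k e 0 o ho
  rw [zero_mul, zero_add, ty_zero] at this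
  exact this

theorem u_right (k : ℕ) (e : Bool) (m : ℕ) (hm : 1 ≤ m) (hm' : m ≤ p k) :
    u (k + 1) e (p (k + 1) - m) = u k true (p k - m) := by
  have h1 : p (k + 1) - m = (q k - 1) * p k + (p k - m) := by
    rw [p_succ, Nat.sub_mul, one_mul]
    have : p k ≤ q k * p k := Nat.le_mul_of_pos_left _ (q_pos k)
    omega
  rw [h1, u_succ k e _ _ (by omega), ty_last]

theorem u_left_le (k d : ℕ) (o : ℕ) (ho : o < p k) : u (k + d) false o = u k false o := by
  induction d with
  | zero => rfl
  | succ d ih =>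
    rw [← ih]
    exact u_left (k + d) false o (lt_of_lt_of_le ho (p_mono (Nat.le_add_right _ _)))

theorem u_right_le (k d : ℕ) (m : ℕ) (hm : 1 ≤ m) (hm' : m ≤ p k) :
    u (k + d) true (p (k + d) - m) = u k true (p k - m) := by
  induction d with
  | zero => rfl
  | succ d ih =>
    rw [← ih]
    exact u_right (k + d) true m hm (hm'.trans (p_mono (Nat.le_add_right _ _)))

/-- the sequence -/
def x (n : ℤ) : Bool :=
  if 0 ≤ n then u n.natAbs false n.natAbs else u n.natAbs true (p n.natAbs - n.natAbs)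

theorem x_nonneg (k i : ℕ) (hi : i < p k) : x (i : ℤ) = u k false i := by
  unfold x
  rw [if_pos (by positivity), Int.natAbs_natCast]
  rcases le_total i k with h | h
  · obtain ⟨d, rfl⟩ := Nat.exists_eq_add_of_le h
    exact (u_left_le i d i (lt_p i)).symm
  · obtain ⟨d, rfl⟩ := Nat.exists_eq_add_of_le h
    exact u_left_le k d _ hi

theorem x_neg (k m : ℕ) (hm : 1 ≤ m) (hm' : m ≤ p k) : x (-(m : ℤ)) = u k true (p k - m) := by
  unfold x
  rw [if_neg (by omega), Int.natAbs_neg, Int.natAbs_natCast]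
  rcases le_total m k with h | h
  · obtain ⟨d, rfl⟩ := Nat.exists_eq_add_of_le h
    exact (u_right_le m d m hm (lt_p m).le).symm
  · obtain ⟨d, rfl⟩ := Nat.exists_eq_add_of_le h
    exact u_right_le k d _ hm hm'

theorem p_dvd (k d : ℕ) : p k ∣ p (k + d) := by
  induction d with
  | zero => exact dvd_rfl
  | succ d ih => exact ih.trans (Dvd.intro_left _ rfl)

theorem p_add_ge (k d : ℕ) : (d + 1) * p k ≤ p (k + d) := by
  induction d with
  | zero => simp
  | succ d ih =>
    have h1 : p (k + (d + 1)) = q (k + d) * p (k + d) := rfl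
    rw [h1]
    have h2 := q_ge (k + d)
    have h3 := p_mono (Nat.le_add_right k d)
    nlinarith

/-- sub-blocks of a block -/
theorem u_sub (k d : ℕ) : ∀ (e : Bool) (j : ℕ), (j + 1) * p k ≤ p (k + d) →
    ∃ e' : Bool, ∀ i < p k, u (k + d) e (j * p k + i) = u k e' i := by
  induction d with
  | zero =>
    intro e j hj
    have h0 := p_pos k
    have : j = 0 := by
      by_contra h
      have : 2 ≤ j + 1 := by omega
      have : 2 * p k ≤ (j + 1) * p k := Nat.mul_le_mul_right _ this
      simp only [add_zero] at hj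
      omega
    subst this
    exact ⟨e, fun i _ => by simp⟩
  | succ d ih =>
    intro e j hj
    obtain ⟨c, hc⟩ := p_dvd k d
    have h0 := p_pos k
    have hc0 : 0 < c := by
      rcases Nat.eq_zero_or_pos c with h | h
      · subst h
        have := p_pos (k + d)
        omega
      · exact h
    set a := j / c with ha
    set b := j % c with hb
    have hjab : j = c * a + b := (Nat.div_add_mod j c).symm
    have hbc : b < c := Nat.mod_lt _ hc0
    have hb1 : (b + 1) * p k ≤ p (k + d) := by
      rw [hc, mul_comm (p k) c]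
      exact Nat.mul_le_mul_right _ hbc
    obtain ⟨e', he'⟩ := ih (ty (k + d) e a) b hb1
    refine ⟨e', fun i hi => ?_⟩
    have h1 : j * p k + i = a * p (k + d) + (b * p k + i) := by
      rw [hjab, hc]; ring
    have h2 : b * p k + i < p (k + d) := by nlinarith
    rw [h1]
    change u (k + d + 1) e _ = _
    rw [u_succ (k + d) e a _ h2, he' i hi]

/-- `x` is a concatenation of blocks of level `k` -/
theorem x_block (k : ℕ) (m : ℤ) : ∃ e : Bool, ∀ i < p k, x (m * p k + i) = u k e i := by
  have h0 := p_pos k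
  rcases le_or_gt 0 m with hm | hm
  · obtain ⟨n, rfl⟩ := Int.eq_ofNat_of_zero_le hm
    obtain ⟨e, he⟩ := u_sub k n false n (p_add_ge k n)
    refine ⟨e, fun i hi => ?_⟩
    rw [← he i hi]
    have h1 : ((n : ℤ) * (p k : ℤ) + (i : ℤ)) = ((n * p k + i : ℕ) : ℤ) := by push_cast; ring
    rw [h1]
    apply x_nonneg
    have := p_add_ge k n
    nlinarith
  · obtain ⟨n, hn⟩ := Int.eq_ofNat_of_zero_le (show (0 : ℤ) ≤ -m by omega)
    have hn1 : 1 ≤ n := by omega
    obtain ⟨c, hc⟩ := p_dvd k n
    have hcn : n + 1 ≤ c := by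
      have := p_add_ge k n
      rw [hc, mul_comm (p k) c] at this
      exact Nat.le_of_mul_le_mul_right this h0
    have hj : (c - n - 1 + 1 + 0) * p k ≤ p (k + n) := by
      rw [hc, mul_comm (p k) c]
      exact Nat.mul_le_mul_right _ (by omega)
    obtain ⟨e, he⟩ := u_sub k n true (c - n) (by
      rw [hc, mul_comm (p k) c]
      exact Nat.mul_le_mul_right _ (by omega))
    refine ⟨e, fun i hi => ?_⟩
    rw [← he i hi]
    have hle : i < n * p k := by nlinarith
    have h1 : m * (p k : ℤ) + (i : ℤ) = -((n * p k - i : ℕ) : ℤ) := by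
      rw [Nat.cast_sub hle.le]
      have : m = -(n : ℤ) := by omega
      rw [this]
      push_cast
      ring
    have hnc : n * p k ≤ c * p k := Nat.mul_le_mul_right _ (by omega)
    have hcc : p (k + n) = c * p k := by rw [hc, mul_comm]
    rw [h1, x_neg (k + n) (n * p k - i) (by omega) (by omega)]
    congr 1
    rw [hcc, Nat.sub_mul]
    omega

/-- `x` on the sub-blocks of its blocks of level `k + 1` -/
theorem x_block' (k : ℕ) (m : ℤ) : ∃ e : Bool, ∀ j < q k, ∀ o < p k,
    x (m * p (k + 1) + (j * p k + o : ℕ)) = u k (ty k e j) o := by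
  obtain ⟨e, he⟩ := x_block (k + 1) m
  refine ⟨e, fun j hj o ho => ?_⟩
  rw [he (j * p k + o) (by rw [p_succ]; nlinarith), u_succ k e j o ho]

/-- the Toeplitz property -/
theorem x_toeplitz (n : ℤ) : ∃ P : ℕ, 1 ≤ P ∧ ∀ K : ℤ, x (n + K * P) = x n := by
  have key : ∀ (m : ℤ) (i k : ℕ) (s : Bool), i < p (k + 1) →
      (∀ e : Bool, u (k + 1) e i = s) → ∀ K : ℤ, x (m * p (k + 1) + i + K * p (k + 1)) = s := by
    intro m i k s hi hs K
    obtain ⟨e, he⟩ := x_block (k + 1) (m + K)
    have : m * (p (k + 1) : ℤ) + i + K * p (k + 1) = (m + K) * p (k + 1) + i := by ring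
    rw [this, he i hi, hs]
  rcases le_or_gt 0 n with hn | hn
  · obtain ⟨i, rfl⟩ := Int.eq_ofNat_of_zero_le hn
    refine ⟨p (i + 1), p_pos _, fun K => ?_⟩
    have h1 : i < p (i + 1) := (lt_p i).trans (p_lt_succ i)
    have := key 0 i i (u i false i) h1 (fun e => u_left i e i (lt_p i))
    have a := this K
    have b := this 0
    simp only [zero_mul, zero_add, add_zero] at a b
    rw [a, b]
  · obtain ⟨i, hi⟩ := Int.eq_ofNat_of_zero_le (show (0 : ℤ) ≤ -n by omega)
    refine ⟨p (i + 1), p_pos _, fun K => ?_⟩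
    have h1 : i < p (i + 1) := (lt_p i).trans (p_lt_succ i)
    have := key (-1) (p (i + 1) - i) i (u i true (p i - i)) (by omega)
      (fun e => u_right i e i (by omega) (lt_p i).le)
    have a := this K
    have b := this 0
    have h2 : (-1 : ℤ) * (p (i + 1) : ℤ) + ((p (i + 1) - i : ℕ) : ℤ) = n := by
      rw [Nat.cast_sub h1.le]
      omega
    rw [h2] at a b
    simp only [zero_mul, add_zero] at b
    rw [a, b]

end Pool.Agent.V8H52.TZ
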