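import Pool.Agent.V8H52.TZ1

set_option autoImplicit false

open Finset

namespace Pool.Agent.V8H52.TZ

theorem sum_range_mul' {M : Type*} [AddCommMonoid M] (f : ℕ → M) (a b : ℕ) :
    ∑ i ∈ range (a * b), f i = ∑ j ∈ range a, ∑ o ∈ range b, f (j * b + o) := by
  induction a with
  | zero => simp
  | succ a ih =>
    rw [Nat.succ_mul, sum_range_add, ih, sum_range_succ]

/-- windows -/
theorem window (φ : ℤ → ℝ) (hφ : ∀ n, |φ n| ≤ 1) (P : ℕ) (hP : 1 ≤ P) (c : ℝ) (hc : |c| ≤ 1)
    (h : ∀ m : ℤ, c * P ≤ ∑ i ∈ range P, φ (m * P + i)) (s : ℤ) (N : ℕ) :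
    c * N - 4 * P ≤ ∑ i ∈ range N, φ (s + i) := by
  have hP' : (0 : ℤ) < P := by exact_mod_cast hP
  set a : ℤ := s / P with ha
  obtain ⟨b, hb⟩ := Int.eq_ofNat_of_zero_le (Int.emod_nonneg s hP'.ne')
  have hbP : b < P := by
    have := Int.emod_lt_of_pos s hP'
    omega
  have hs : s = a * P + b := by
    rw [ha, ← hb, mul_comm]
    exact (Int.mul_ediv_add_emod s P).symm
  have habs : ∀ (t : ℤ) (n : ℕ), |∑ i ∈ range n, φ (t + i)| ≤ n := by
    intro t n
    refine (abs_sum_le_sum_abs _ _).trans ?_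
    refine (sum_le_sum fun i _ => hφ _).trans ?_
    simp
  have h1 : ∑ i ∈ range (b + N), φ (a * P + i) =
      ∑ i ∈ range b, φ (a * P + i) + ∑ i ∈ range N, φ (s + i) := by
    rw [sum_range_add]
    congr 1
    refine sum_congr rfl fun i _ => ?_
    rw [hs]
    push_cast
    congr 1
    ring
  set Q := (b + N) / P with hQ
  set R := (b + N) % P with hR
  have hRP : R < P := Nat.mod_lt _ hP
  have hQR : b + N = Q * P + R := by
    rw [hQ, hR, mul_comm]
    exact (Nat.div_add_mod _ _).symm
  have h2 : ∑ i ∈ range (b + N), φ (a * P + i) =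
      ∑ j ∈ range Q, ∑ o ∈ range P, φ ((a + j) * P + o) +
      ∑ i ∈ range R, φ ((a + Q) * P + i) := by
    rw [hQR, sum_range_add, sum_range_mul']
    congr 1
    · refine sum_congr rfl fun j _ => sum_congr rfl fun o _ => ?_
      congr 1
      push_cast
      ring
    · refine sum_congr rfl fun j _ => ?_
      congr 1
      push_cast
      ring
  have h3 : (Q : ℝ) * (c * P) ≤ ∑ j ∈ range Q, ∑ o ∈ range P, φ ((a + j) * P + o) := by
    have : ∑ j ∈ range Q, (c * P) ≤ ∑ j ∈ range Q, ∑ o ∈ range P, φ ((a + j) * P + o) :=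
      sum_le_sum fun j _ => by exact_mod_cast h (a + j)
    simpa using this
  have h4 := habs ((a + Q) * P) R
  have h5 := habs (a * P) b
  have hRP' : (R : ℝ) ≤ P := by exact_mod_cast hRP.le
  have hbP' : (b : ℝ) ≤ P := by exact_mod_cast hbP.le
  have hQR' : (b : ℝ) + N = Q * P + R := by exact_mod_cast hQR
  have h6 : (Q : ℝ) * (c * P) = c * (b + N - R) := by rw [hQR']; ring
  have h7 := abs_le.1 h4
  have h8 := abs_le.1 h5
  have h9 : |c * (b - R)| ≤ P := by
    rw [abs_mul]
    have e1 : |(b : ℝ) - R| ≤ P := by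
      rw [abs_le]
      constructor
      · have : (0 : ℝ) ≤ b := by positivity
        linarith
      · have : (0 : ℝ) ≤ R := by positivity
        linarith
    calc |c| * |(b : ℝ) - R| ≤ 1 * P := mul_le_mul hc e1 (abs_nonneg _) (by norm_num)
      _ = P := one_mul _
  have h10 := abs_le.1 h9
  have h11 : c * (b + N - R) = c * N + c * (b - R) := by ring
  linarith [h7.1, h8.2, h10.1]

/-- number of positions where the two blocks agree -/
def dd (k : ℕ) : ℕ := ∑ o ∈ range (p k), if u k false o = u k true o then 1 else 0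

theorem agree_iff (k : ℕ) (a : Bool) (o : ℕ) :
    (u k a o = u k (!a) o) ↔ (u k false o = u k true o) := by
  cases a
  · rfl
  · exact eq_comm

theorem sum_q {M : Type*} [AddCommMonoid M] (k : ℕ) (g : ℕ → M) :
    ∑ j ∈ range (q k), g j = g 0 + ∑ j ∈ range (2 ^ (k + 6)), g (1 + j) + g (q k - 1) := by
  have h1 : q k = (1 + 2 ^ (k + 6)) + 1 := by unfold q; ring
  have h2 : q k - 1 = 1 + 2 ^ (k + 6) := by rw [h1]; rfl
  rw [h2, h1, sum_range_succ, sum_range_add]
  simp

theorem dd_succ (k : ℕ) : dd (k + 1) ≤ 2 ^ (k + 6) * dd k + 2 * p k := by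
  unfold dd
  rw [p_succ, sum_range_mul', sum_q]
  have h1 : ∀ j : ℕ, ∑ o ∈ range (p k), (if u (k + 1) false (j * p k + o) =
      u (k + 1) true (j * p k + o) then 1 else 0 : ℕ) ≤ p k := by
    intro j
    refine (sum_le_sum (g := fun _ => 1) fun o _ => ?_).trans (by simp)
    split_ifs <;> simp
  have h2 : ∀ j ∈ range (2 ^ (k + 6)), ∑ o ∈ range (p k),
      (if u (k + 1) false ((1 + j) * p k + o) = u (k + 1) true ((1 + j) * p k + o)
        then 1 else 0 : ℕ) = ∑ o ∈ range (p k), if u k false o = u k true o then 1 else 0 := by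
    intro j hj
    rw [mem_range] at hj
    refine sum_congr rfl fun o ho => ?_
    rw [mem_range] at ho
    rw [u_succ k _ _ o ho, u_succ k _ _ o ho, ty_mid k _ j hj, ty_mid k _ j hj]
    have := agree_iff k (tm j) o
    simp only [Bool.false_xor, Bool.true_xor]
    simp only [this]
  rw [sum_congr rfl h2, sum_const, card_range, smul_eq_mul]
  have a := h1 0
  have b := h1 (q k - 1)
  omega

theorem dd_bound (k : ℕ) : 16 * 2 ^ k * dd k ≤ (2 ^ k - 1) * p k := by
  induction k with
  | zero => simp [dd, p_zero, u_zero]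
  | succ k ih =>
    have h1 := dd_succ k
    have h2 : 1 ≤ 2 ^ k := Nat.one_le_two_pow
    obtain ⟨w, hw⟩ := Nat.exists_eq_add_of_le h2
    have h3 : 2 ^ (k + 1) = 2 * (1 + w) := by rw [pow_succ, hw]; ring
    have h4 : 2 ^ (k + 6) = 64 * (1 + w) := by rw [pow_add, hw]; ring
    have h5 : p (k + 1) = (64 * (1 + w) + 2) * p k := by rw [p_succ, q, h4]
    rw [h3, h5]
    rw [hw] at ih
    rw [h4] at h1
    have h6 : 2 * (1 + w) - 1 = 2 * w + 1 := by omega
    have h7 : 1 + w - 1 = w := by omega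
    rw [h6]
    rw [h7] at ih
    calc 16 * (2 * (1 + w)) * dd (k + 1)
        ≤ 16 * (2 * (1 + w)) * (64 * (1 + w) * dd k + 2 * p k) := Nat.mul_le_mul_left _ h1
      _ = 128 * (1 + w) * (16 * (1 + w) * dd k) + 64 * (1 + w) * p k := by ring
      _ ≤ 128 * (1 + w) * (w * p k) + 64 * (1 + w) * p k :=
          Nat.add_le_add_right (Nat.mul_le_mul_left _ ih) _
      _ ≤ (2 * w + 1) * ((64 * (1 + w) + 2) * p k) := by nlinarith [p_pos k]

theorem dd_le (k : ℕ) : 16 * dd k ≤ p k := by
  have h := dd_bound k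
  have h2 : 0 < 2 ^ k := by positivity
  have h3 : (2 ^ k - 1) * p k ≤ 2 ^ k * p k := Nat.mul_le_mul_right _ (Nat.sub_le _ _)
  have h4 : 2 ^ k * (16 * dd k) ≤ 2 ^ k * p k := by
    calc 2 ^ k * (16 * dd k) = 16 * 2 ^ k * dd k := by ring
      _ ≤ _ := h.trans h3
  exact Nat.le_of_mul_le_mul_left h4 h2

/-- the intermediate blocks -/
def V (k : ℕ) (a : Bool) (i : ℕ) : Bool := u k (xor a (tm (i / p k))) (i % p k)

theorem V_ne (k : ℕ) (a : Bool) (i : ℕ)
    (h : u k false (i % p k) ≠ u k true (i % p k)) : V k a i ≠ V k (!a) i := by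
  unfold V
  have := agree_iff k (xor a (tm (i / p k))) (i % p k)
  intro h'
  apply h
  rw [← this, h']
  congr 1
  cases a <;> simp

theorem x_V (k j : ℕ) (hj : j + 2 ≤ k + 6) (m : ℤ) : ∃ e : Bool, ∀ m' < 2 ^ (k + 4 - j), ∀ r < 4,
    ∀ i < 2 ^ j * p k, x (m * p (k + 1) + (p k + (m' * (4 * (2 ^ j * p k)) + (r * (2 ^ j * p k) + i)) : ℕ))
      = V k (xor e (xor (tm m') (tm r))) i := by
  obtain ⟨e, he⟩ := x_block' k m
  refine ⟨e, fun m' hm' r hr i hi => ?_⟩
  have hp := p_pos k
  have hs : i / p k < 2 ^ j := Nat.div_lt_of_lt_mul (by rw [mul_comm]; exact hi)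
  have ho : i % p k < p k := Nat.mod_lt _ hp
  have hi' : i = (i / p k) * p k + i % p k := by
    rw [mul_comm]; exact (Nat.div_add_mod i (p k)).symm
  set s := i / p k with hsdef
  set o := i % p k with hodef
  set T := m' * 2 ^ (j + 2) + (r * 2 ^ j + s) with hT
  have h1 : p k + (m' * (4 * (2 ^ j * p k)) + (r * (2 ^ j * p k) + i)) = (1 + T) * p k + o := by
    rw [hi', hT, pow_add]; ring
  have hrs : r * 2 ^ j + s < 2 ^ (j + 2) := by
    rw [pow_add]
    have : (r + 1) * 2 ^ j ≤ 4 * 2 ^ j := Nat.mul_le_mul_right _ hr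
    nlinarith
  have hT' : T < 2 ^ (k + 6) := by
    have e1 : 2 ^ (k + 6) = 2 ^ (k + 4 - j) * 2 ^ (j + 2) := by
      rw [← pow_add]; congr 1; omega
    rw [e1]
    have : (m' + 1) * 2 ^ (j + 2) ≤ 2 ^ (k + 4 - j) * 2 ^ (j + 2) := Nat.mul_le_mul_right _ hm'
    nlinarith
  have e2 : tm T = xor (tm m') (xor (tm r) (tm s)) := by
    rw [hT, tm_add (j + 2) m' _ hrs, tm_add j r s hs]
  rw [h1, he (1 + T) (by unfold q; omega) o ho, ty_mid k e T hT', e2]
  unfold V
  rw [← hsdef, ← hodef]
  congr 1
  cases e <;> cases tm m' <;> cases tm r <;> cases tm s <;> rfl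

/-- mismatches -/
def mis (n : ℕ) (t : ℤ) : ℕ := if x t = x (t + n) then 0 else 1

theorem mis_block (k j n : ℕ) (hj : j + 2 ≤ k + 6) (hn : n < 2 ^ j * p k)
    (hn' : 2 ^ j * p k ≤ 5 * n) (m : ℤ) :
    p (k + 1) ≤ 64 * ∑ i ∈ range (p (k + 1)), mis n (m * p (k + 1) + i) := by
  obtain ⟨e, he⟩ := x_V k j hj m
  set v := 2 ^ j * p k with hv
  -- restrict to the middle part
  have h1 : ∑ m' ∈ range (2 ^ (k + 4 - j)), ∑ i ∈ range (4 * v),
      mis n (m * p (k + 1) + (p k + (m' * (4 * v) + i) : ℕ)) ≤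
      ∑ i ∈ range (p (k + 1)), mis n (m * p (k + 1) + i) := by
    have e1 : p (k + 1) = p k + 2 ^ (k + 4 - j) * (4 * v) + p k := by
      have e2 : 2 ^ (k + 6) = 2 ^ (k + 4 - j) * (4 * 2 ^ j) := by
        have : (4 : ℕ) = 2 ^ 2 := by norm_num
        rw [this, ← pow_add, ← pow_add]; congr 1; omega
      rw [p_succ, q, e2, hv]; ring
    conv_rhs => rw [e1]
    rw [sum_range_add, sum_range_add, sum_range_mul']
    refine le_trans ?_ (Nat.le_add_right _ _)
    refine le_trans ?_ (Nat.le_add_left _ _)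
    apply le_of_eq
    refine sum_congr rfl fun m' _ => sum_congr rfl fun i _ => ?_
    rw [e1]
  -- each 4-block
  have h2 : ∀ m' ∈ range (2 ^ (k + 4 - j)), n ≤ 2 ^ j * dd k + ∑ i ∈ range (4 * v),
      mis n (m * p (k + 1) + (p k + (m' * (4 * v) + i) : ℕ)) := by
    intro m' hm'
    rw [mem_range] at hm'
    have e1 : 4 * v = v + (v + 2 * v) := by ring
    have e3 : ∑ i ∈ range v, mis n (m * p (k + 1) + (p k + (m' * (4 * v) + i) : ℕ)) +
        ∑ i ∈ range v, mis n (m * p (k + 1) + (p k + (m' * (4 * v) + (v + i)) : ℕ)) ≤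
        ∑ i ∈ range (4 * v), mis n (m * p (k + 1) + (p k + (m' * (4 * v) + i) : ℕ)) := by
      conv_rhs => rw [e1]
      rw [sum_range_add, sum_range_add, ← add_assoc]
      refine le_trans ?_ (Nat.le_add_right _ _)
      rw [← e1]
    have e4 : ∀ i ∈ range v, (if v - n ≤ i then 1 else 0 : ℕ) ≤
        (if u k false (i % p k) = u k true (i % p k) then 1 else 0) +
        (mis n (m * p (k + 1) + (p k + (m' * (4 * v) + i) : ℕ)) +
        mis n (m * p (k + 1) + (p k + (m' * (4 * v) + (v + i)) : ℕ))) := by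
      intro i hi
      rw [mem_range] at hi
      by_cases c1 : v - n ≤ i
      · by_cases c2 : u k false (i % p k) = u k true (i % p k)
        · rw [if_pos c1, if_pos c2]; omega
        · rw [if_pos c1, if_neg c2, zero_add]
          have hi' : i + n - v < v := by omega
          have f0 := he m' hm' 0 (by norm_num) i hi
          have f1 := he m' hm' 1 (by norm_num) i hi
          have f1' := he m' hm' 1 (by norm_num) (i + n - v) hi'
          have f2' := he m' hm' 2 (by norm_num) (i + n - v) hi'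
          rw [tm_zero] at f0
          rw [tm_one] at f1 f1'
          rw [tm_two] at f2'
          rw [zero_mul, zero_add] at f0
          rw [one_mul] at f1 f1'
          have g1 : (m * p (k + 1) + (p k + (m' * (4 * v) + i) : ℕ)) + (n : ℤ) =
              m * p (k + 1) + (p k + (m' * (4 * v) + (v + (i + n - v))) : ℕ) := by
            have : i + n = v + (i + n - v) := by omega
            rw [← this]
            push_cast
            ring
          have g2 : (m * p (k + 1) + (p k + (m' * (4 * v) + (v + i)) : ℕ)) + (n : ℤ) =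
              m * p (k + 1) + (p k + (m' * (4 * v) + (2 * v + (i + n - v))) : ℕ) := by
            have : v + i + n = 2 * v + (i + n - v) := by omega
            rw [← this]
            push_cast
            ring
          unfold mis
          rw [g1, g2, f0, f1, f1', f2']
          have hne := V_ne k (xor e (xor (tm m') false)) i c2
          have hb : (!(xor e (xor (tm m') false))) = xor e (xor (tm m') true) := by
            cases e <;> cases tm m' <;> rfl
          rw [hb] at hne
          by_cases c3 : V k (xor e (xor (tm m') false)) i =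
              V k (xor e (xor (tm m') true)) (i + n - v)
          · rw [if_pos c3, zero_add, if_neg]
            intro c4
            exact hne (c3.trans c4.symm)
          · rw [if_neg c3]; omega
      · rw [if_neg c1]; omega
    have e5 : n = ∑ i ∈ range v, (if v - n ≤ i then 1 else 0 : ℕ) := by
      have : v = (v - n) + n := by omega
      conv_rhs => rw [this]
      rw [sum_range_add]
      have z1 : ∑ i ∈ range (v - n), (if v - n + n - n ≤ i then 1 else 0 : ℕ) = 0 := by
        apply sum_eq_zero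
        intro i hi
        rw [mem_range] at hi
        rw [if_neg (by omega)]
      have z2 : ∑ i ∈ range n, (if v - n + n - n ≤ v - n + i then 1 else 0 : ℕ) = n := by
        rw [sum_congr rfl (g := fun _ => 1) (fun i hi => by rw [if_pos (by omega)])]
        simp
      rw [z1, z2, zero_add]
    have e6 : ∑ i ∈ range v, (if u k false (i % p k) = u k true (i % p k) then 1 else 0 : ℕ) =
        2 ^ j * dd k := by
      rw [hv, sum_range_mul']
      have : ∀ s ∈ range (2 ^ j), ∑ o ∈ range (p k), (if u k false ((s * p k + o) % p k) =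
          u k true ((s * p k + o) % p k) then 1 else 0 : ℕ) = dd k := by
        intro s _
        refine sum_congr rfl fun o ho => ?_
        rw [mem_range] at ho
        have : (s * p k + o) % p k = o := by
          rw [add_comm, Nat.add_mul_mod_self_right, Nat.mod_eq_of_lt ho]
        rw [this]
      rw [sum_congr rfl this]
      simp
    have e7 := sum_le_sum e4
    rw [sum_add_distrib, sum_add_distrib, ← e5, e6] at e7
    omega
  -- total
  have h3 := sum_le_sum h2
  rw [sum_const, card_range, smul_eq_mul, sum_add_distrib, sum_const, card_range, smul_eq_mul] at h3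
  have h4 := dd_le k
  set M := 2 ^ (k + 4 - j) with hM
  set S := ∑ m' ∈ range M, ∑ i ∈ range (4 * v),
      mis n (m * p (k + 1) + (p k + (m' * (4 * v) + i) : ℕ)) with hS
  -- 80 (M n) >= 16 M v, 80 M 2^j dd <= 5 M v
  have h5 : 80 * (M * (2 ^ j * dd k)) ≤ 5 * (M * v) := by
    rw [hv]
    have : M * 2 ^ j * (16 * dd k) ≤ M * 2 ^ j * p k := Nat.mul_le_mul_left _ h4
    nlinarith
  have h6 : 16 * (M * v) ≤ 80 * (M * n) := by
    have : M * v ≤ M * (5 * n) := Nat.mul_le_mul_left _ hn'
    nlinarith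
  have h7 : 11 * (M * v) ≤ 80 * S := by
    have := Nat.mul_le_mul_left 80 h3
    rw [Nat.mul_add] at this
    omega
  have h8 : 16 * (M * v) = 2 ^ (k + 6) * 4 * p k := by
    have e2 : 2 ^ (k + 6) = M * 4 * 2 ^ j := by
      have : (4 : ℕ) = 2 ^ 2 := by norm_num
      rw [hM, this, ← pow_add, ← pow_add]; congr 1; omega
    rw [e2, hv]; ring
  have h9 : p (k + 1) ≤ 2 ^ (k + 6) * 2 * p k := by
    rw [p_succ, q]
    have : 2 ≤ 2 ^ (k + 6) := by
      calc 2 = 2 ^ 1 := by norm_num
        _ ≤ 2 ^ (k + 6) := Nat.pow_le_pow_right (by norm_num) (by omega)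
    exact Nat.mul_le_mul_right _ (by omega)
  have h10 := Nat.mul_le_mul_left 64 h1
  have h11 : 2 ^ (k + 6) * 2 * p k * 2 = 16 * (M * v) := by rw [h8]; ring
  omega

end Pool.Agent.V8H52.TZ
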