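import Pool.Agent.V8H52.TZ2

set_option autoImplicit false

open Finset

namespace Pool.Agent.V8H52.TZ

theorem tm_five : tm 5 = false := by
  have := tm_two_mul_add_one 2
  rw [tm_two] at this
  simpa using this

theorem tm_six : tm 6 = false := by
  have h := tm_two_mul_add_one 1
  rw [tm_one] at h
  have h3 : tm 3 = false := by simpa using h
  have := tm_two_mul 3
  rw [h3] at this
  simpa using this

/-- the block number `N` of level `k` has type `a` -/
def IsTy (k : ℕ) (N : ℤ) (a : Bool) : Prop := ∀ i < p k, x (N * p k + i) = u k a i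

theorem bad_card (P l : ℕ) :
    ∑ o ∈ range P, (if l ≤ o ∧ o + l < P then 0 else 1 : ℕ) ≤ 2 * l := by
  have h1 : ∀ o ∈ range P, (if l ≤ o ∧ o + l < P then 0 else 1 : ℕ) ≤
      (if o < l then 1 else 0) + (if P - l ≤ o then 1 else 0) := by
    intro o _
    split_ifs <;> omega
  refine (sum_le_sum h1).trans ?_
  rw [sum_add_distrib]
  have h2 : ∑ o ∈ range P, (if o < l then 1 else 0 : ℕ) ≤ l := by
    rw [← sum_filter, ← card_eq_sum_ones]
    refine (card_le_card (t := range l) fun o ho => ?_).trans (by simp)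
    simp only [mem_filter, mem_range] at ho ⊢
    exact ho.2
  have h3 : ∑ o ∈ range P, (if P - l ≤ o then 1 else 0 : ℕ) ≤ l := by
    rw [← sum_filter, ← card_eq_sum_ones]
    refine (card_le_card (t := Ico (P - l) P) fun o ho => ?_).trans ?_
    · simp only [mem_filter, mem_range, mem_Ico] at ho ⊢
      exact ⟨ho.2, ho.1⟩
    · rw [Nat.card_Ico]; omega
  omega

open Classical in
theorem rig_block (A : ℤ → Prop) (l : ℕ)
    (hA : ∀ s t : ℤ, (∀ i : ℤ, -(l : ℤ) ≤ i → i ≤ l → x (s + i) = x (t + i)) → (A s → A t))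
    (k : ℕ) (m : ℤ) :
    ∑ i ∈ range (p (k + 1)), (if A (m * p (k + 1) + i) then 1 else 0 : ℕ) ≤
      16 * ∑ i ∈ range (p (k + 1)),
        (if A (m * p (k + 1) + i) ∧ A (m * p (k + 1) + i + p k) then 1 else 0 : ℕ) +
      2 * l * q k := by
  set G : Bool → ℕ → Prop := fun a o => ∃ N : ℤ, IsTy k N a ∧ A (N * p k + o) with hG
  have hGA : ∀ (N : ℤ) (a : Bool), IsTy k N a → ∀ o : ℕ, l ≤ o → o + l < p k →
      (A (N * p k + o) ↔ G a o) := by
    intro N a hN o h1 h2
    constructor
    · intro h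
      exact ⟨N, hN, h⟩
    · rintro ⟨N', hN', h⟩
      refine hA _ _ ?_ h
      intro i hi hi'
      obtain ⟨w, hw⟩ := Int.eq_ofNat_of_zero_le (show (0 : ℤ) ≤ (o : ℤ) + i by omega)
      have e1 : N' * (p k : ℤ) + o + i = N' * p k + w := by rw [← hw]; ring
      have e2 : N * (p k : ℤ) + o + i = N * p k + w := by rw [← hw]; ring
      rw [e1, e2, hN' w (by omega), hN w (by omega)]
  set gS : Bool → ℕ := fun a => ∑ o ∈ range (p k),
    (if (l ≤ o ∧ o + l < p k) ∧ G a o then 1 else 0 : ℕ) with hgS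
  -- upper bound on one block
  have hup : ∀ (N : ℤ), ∑ o ∈ range (p k), (if A (N * p k + o) then 1 else 0 : ℕ) ≤
      gS false + gS true + 2 * l := by
    intro N
    obtain ⟨a, ha⟩ := x_block k N
    have h1 : ∀ o ∈ range (p k), (if A (N * p k + o) then 1 else 0 : ℕ) ≤
        (if (l ≤ o ∧ o + l < p k) ∧ G a o then 1 else 0) +
        (if l ≤ o ∧ o + l < p k then 0 else 1) := by
      intro o _
      by_cases c1 : l ≤ o ∧ o + l < p k
      · by_cases c2 : A (N * p k + o)
        · rw [if_pos c2, if_pos ⟨c1, (hGA N a ha o c1.1 c1.2).1 c2⟩]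
          omega
        · rw [if_neg c2]; omega
      · rw [if_neg c1]
        split_ifs <;> omega
    refine (sum_le_sum h1).trans ?_
    rw [sum_add_distrib]
    have h2 := bad_card (p k) l
    have h3 : gS a ≤ gS false + gS true := by cases a <;> simp
    exact Nat.add_le_add h3 h2
  -- lower bound on a pair of equal blocks
  have hlow : ∀ (N : ℤ) (a : Bool), IsTy k N a → IsTy k (N + 1) a →
      gS a ≤ ∑ o ∈ range (p k), (if A (N * p k + o) ∧ A (N * p k + o + p k) then 1 else 0 : ℕ) := by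
    intro N a h1 h2
    refine sum_le_sum fun o _ => ?_
    by_cases c : (l ≤ o ∧ o + l < p k) ∧ G a o
    · rw [if_pos c]
      have a1 := (hGA N a h1 o c.1.1 c.1.2).2 c.2
      have a2 := (hGA (N + 1) a h2 o c.1.1 c.1.2).2 c.2
      have e : (N + 1) * (p k : ℤ) + o = N * p k + o + p k := by ring
      rw [e] at a2
      rw [if_pos ⟨a1, a2⟩]
    · rw [if_neg c]; omega
  -- sum of upper bounds
  have hN : ∀ (j o : ℕ), m * (p (k + 1) : ℤ) + ((j * p k + o : ℕ) : ℤ) =
      (m * q k + j) * p k + o := by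
    intro j o
    rw [p_succ]; push_cast; ring
  have h1 : ∑ i ∈ range (p (k + 1)), (if A (m * p (k + 1) + i) then 1 else 0 : ℕ) ≤
      q k * (gS false + gS true + 2 * l) := by
    have e : ∑ i ∈ range (p (k + 1)), (if A (m * p (k + 1) + i) then 1 else 0 : ℕ) =
        ∑ j ∈ range (q k), ∑ o ∈ range (p k),
          (if A ((m * q k + j) * p k + o) then 1 else 0 : ℕ) := by
      conv_lhs => rw [show range (p (k + 1)) = range (q k * p k) from rfl]
      rw [sum_range_mul']
      refine sum_congr rfl fun j _ => sum_congr rfl fun o _ => ?_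
      rw [hN j o]
    rw [e]
    have e5 := sum_le_sum (s := range (q k)) (fun (j : ℕ) _ => hup (m * q k + (j : ℤ)))
    refine e5.trans ?_
    simp
  -- lower bounds
  obtain ⟨e, he⟩ := x_block' k m
  have hty : ∀ j < 2 ^ (k + 6), IsTy k (m * q k + (1 + j : ℕ)) (xor e (tm j)) := by
    intro j hj i hi
    rw [← hN (1 + j) i, he (1 + j) (by unfold q; omega) i hi, ty_mid k e j hj]
  have h2 : 2 ^ (k + 3) * (gS false + gS true) ≤ ∑ i ∈ range (p (k + 1)),
      (if A (m * p (k + 1) + i) ∧ A (m * p (k + 1) + i + p k) then 1 else 0 : ℕ) := by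
    have e1 : ∑ i ∈ range (p (k + 1)),
        (if A (m * p (k + 1) + i) ∧ A (m * p (k + 1) + i + p k) then 1 else 0 : ℕ) =
        ∑ j ∈ range (q k), ∑ o ∈ range (p k), (if A ((m * q k + j) * p k + o) ∧
          A ((m * q k + j) * p k + o + p k) then 1 else 0 : ℕ) := by
      conv_lhs => rw [show range (p (k + 1)) = range (q k * p k) from rfl]
      rw [sum_range_mul']
      refine sum_congr rfl fun j _ => sum_congr rfl fun o _ => ?_
      rw [hN j o]
    rw [e1, sum_q]
    refine le_trans ?_ (Nat.le_add_right _ _)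
    refine le_trans ?_ (Nat.le_add_left _ _)
    have e2 : 2 ^ (k + 6) = 2 ^ (k + 3) * 8 := by
      have : (8 : ℕ) = 2 ^ 3 := by norm_num
      rw [this, ← pow_add]
    rw [show range (2 ^ (k + 6)) = range (2 ^ (k + 3) * 8) by rw [e2], sum_range_mul']
    have e3 : ∀ m' ∈ range (2 ^ (k + 3)), gS false + gS true ≤ ∑ r ∈ range 8,
        ∑ o ∈ range (p k), (if A ((m * q k + (1 + (m' * 8 + r) : ℕ)) * p k + o) ∧
          A ((m * q k + (1 + (m' * 8 + r) : ℕ)) * p k + o + p k) then 1 else 0 : ℕ) := by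
      intro m' hm'
      rw [mem_range] at hm'
      have t : ∀ r < 8, tm (m' * 8 + r) = xor (tm m') (tm r) := fun r hr => tm_add 3 m' r hr
      have l1 : m' * 8 + 8 ≤ 2 ^ (k + 6) := by rw [e2]; omega
      have y1 := hty (m' * 8 + 1) (by omega)
      have y2 := hty (m' * 8 + 2) (by omega)
      have y5 := hty (m' * 8 + 5) (by omega)
      have y6 := hty (m' * 8 + 6) (by omega)
      rw [t 1 (by norm_num), tm_one] at y1
      rw [t 2 (by norm_num), tm_two] at y2
      rw [t 5 (by norm_num), tm_five] at y5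
      rw [t 6 (by norm_num), tm_six] at y6
      have c1 : (m * (q k : ℤ) + ((1 + (m' * 8 + 2) : ℕ) : ℤ)) =
          (m * (q k : ℤ) + ((1 + (m' * 8 + 1) : ℕ) : ℤ)) + 1 := by push_cast; ring
      have c2 : (m * (q k : ℤ) + ((1 + (m' * 8 + 6) : ℕ) : ℤ)) =
          (m * (q k : ℤ) + ((1 + (m' * 8 + 5) : ℕ) : ℤ)) + 1 := by push_cast; ring
      rw [c1] at y2
      rw [c2] at y6
      have z1 := hlow _ _ y1 y2
      have z5 := hlow _ _ y5 y6
      have s8 : ∀ f : ℕ → ℕ, f 1 + f 5 ≤ ∑ r ∈ range 8, f r := by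
        intro f
        simp only [sum_range_succ, range_zero, sum_empty]
        omega
      refine le_trans ?_ (s8 _)
      have z : gS false + gS true = gS (xor e (xor (tm m') true)) + gS (xor e (xor (tm m') false)) := by
        cases e <;> cases tm m' <;> simp [add_comm]
      rw [z]
      exact Nat.add_le_add z1 z5
    have e4 := sum_le_sum e3
    rw [sum_const, card_range, smul_eq_mul] at e4
    exact e4
  have h3 : q k ≤ 16 * 2 ^ (k + 3) := by
    have e1 : 16 * 2 ^ (k + 3) = 2 * 2 ^ (k + 6) := by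
      have : 2 ^ (k + 6) = 2 ^ (k + 3) * 8 := by
        have : (8 : ℕ) = 2 ^ 3 := by norm_num
        rw [this, ← pow_add]
      rw [this]; ring
    have e2 : 2 ≤ 2 ^ (k + 6) := by
      calc 2 = 2 ^ 1 := by norm_num
        _ ≤ 2 ^ (k + 6) := Nat.pow_le_pow_right (by norm_num) (by omega)
    rw [e1, q]
    omega
  calc _ ≤ q k * (gS false + gS true + 2 * l) := h1
    _ = q k * (gS false + gS true) + 2 * l * q k := by ring
    _ ≤ 16 * 2 ^ (k + 3) * (gS false + gS true) + 2 * l * q k :=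
        Nat.add_le_add_right (Nat.mul_le_mul_right _ h3) _
    _ = 16 * (2 ^ (k + 3) * (gS false + gS true)) + 2 * l * q k := by ring
    _ ≤ _ := Nat.add_le_add_right (Nat.mul_le_mul_left _ h2) _

/-- the scale for a given shift -/
theorem scale (n : ℕ) (hn : 1 ≤ n) : ∃ k j : ℕ, j + 2 ≤ k + 6 ∧ n < 2 ^ j * p k ∧
    2 ^ j * p k ≤ 5 * n := by
  have hex : ∃ k, n < p k := ⟨n, lt_p n⟩
  classical
  set K := Nat.find hex with hK
  have hK1 : n < p K := Nat.find_spec hex
  have hK0 : K ≠ 0 := by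
    intro h
    rw [h, p_zero] at hK1
    omega
  obtain ⟨k, hk⟩ := Nat.exists_eq_succ_of_ne_zero hK0
  have hk1 : p k ≤ n := by
    by_contra h
    have := Nat.find_min hex (m := k) (by omega)
    exact this (by omega)
  rw [hk] at hK1
  rcases lt_or_ge n (2 ^ (k + 4) * p k) with h | h
  · have hex2 : ∃ j, n < 2 ^ j * p k := ⟨k + 4, h⟩
    set J := Nat.find hex2 with hJ
    have hJ1 : n < 2 ^ J * p k := Nat.find_spec hex2
    have hJ2 : J ≤ k + 4 := Nat.find_min' hex2 h
    have hJ0 : J ≠ 0 := by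
      intro h0
      rw [h0] at hJ1
      simp at hJ1
      omega
    obtain ⟨j, hj⟩ := Nat.exists_eq_succ_of_ne_zero hJ0
    have hj1 : 2 ^ j * p k ≤ n := by
      by_contra h0
      have := Nat.find_min hex2 (m := j) (by omega)
      exact this (by omega)
    refine ⟨k, J, by omega, hJ1, ?_⟩
    rw [hj, Nat.succ_eq_add_one, pow_succ]
    nlinarith
  · refine ⟨k + 1, 0, by omega, by simpa using hK1, ?_⟩
    rw [pow_zero, one_mul, p_succ, q]
    have e : 2 ^ (k + 6) = 4 * 2 ^ (k + 4) := by rw [pow_add, pow_add]; ring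
    have e2 : 2 ≤ 2 ^ (k + 4) := by
      calc 2 = 2 ^ 1 := by norm_num
        _ ≤ 2 ^ (k + 4) := Nat.pow_le_pow_right (by norm_num) (by omega)
    calc (2 ^ (k + 6) + 2) * p k ≤ (5 * 2 ^ (k + 4)) * p k := Nat.mul_le_mul_right _ (by omega)
      _ = 5 * (2 ^ (k + 4) * p k) := by ring
      _ ≤ 5 * n := Nat.mul_le_mul_left _ h

/-- mismatch frequency: for every shift `n ≥ 1` there is a level with many mismatches in each
block -/
theorem mis_freq (n : ℕ) (hn : 1 ≤ n) : ∃ k : ℕ, ∀ m : ℤ,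
    p (k + 1) ≤ 64 * ∑ i ∈ range (p (k + 1)), mis n (m * p (k + 1) + i) := by
  obtain ⟨k, j, h1, h2, h3⟩ := scale n hn
  exact ⟨k, fun m => mis_block k j n h1 h2 h3 m⟩

theorem x_not_periodic (n : ℕ) (hn : 1 ≤ n) : ∃ t : ℤ, x (t + n) ≠ x t := by
  by_contra h
  push Not at h
  obtain ⟨k, hk⟩ := mis_freq n hn
  have h1 := hk 0
  have h2 : ∑ i ∈ range (p (k + 1)), mis n (0 * p (k + 1) + i) = 0 := by
    apply sum_eq_zero
    intro i _
    unfold mis
    rw [if_pos (h _).symm]
  rw [h2] at h1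
  have := p_pos (k + 1)
  omega

end Pool.Agent.V8H52.TZ
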