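import Mathlib

/-!
Existence of an ergodic invariant probability measure for a continuous self-map of a compact
metrizable totally disconnected space.  (The strictly convex functional is the one used in the
starting file H98R3/BA/Ergo.)
-/

set_option autoImplicit false

open MeasureTheory Filter Topology Set TopologicalSpace
open scoped ENNReal NNReal

namespace Pool.Agent.V8H52.TZ.Erg

variable {X : Type*} [TopologicalSpace X] [CompactSpace X] [T2Space X] [TotallyDisconnectedSpace X]
  [SecondCountableTopology X] [MeasurableSpace X] [BorelSpace X]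

instance countable_clopens : Countable (Clopens X) :=
  Clopens.countable_iff_secondCountable.2 inferInstance

noncomputable def ev (μ : ProbabilityMeasure X) (K : Set X) : ℝ := (μ : Measure X).real K

theorem continuous_ev {K : Set X} (hK : IsClopen K) :
    Continuous fun μ : ProbabilityMeasure X => ev μ K := by
  refine continuous_iff_continuousAt.2 fun μ => ?_
  have := ProbabilityMeasure.tendsto_measure_of_isClopen_of_tendsto
    (tendsto_id (x := 𝓝 μ)) hK
  exact (NNReal.tendsto_coe.2 this)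

theorem ev_nonneg (μ : ProbabilityMeasure X) (K : Set X) : 0 ≤ ev μ K := measureReal_nonneg

theorem ev_le_one (μ : ProbabilityMeasure X) (K : Set X) : ev μ K ≤ 1 := measureReal_le_one

theorem ext_ev {μ ν : ProbabilityMeasure X} (h : ∀ K : Set X, IsClopen K → ev μ K = ev ν K) :
    μ = ν := by
  apply Subtype.ext
  haveI : IsProbabilityMeasure (Subtype.val ν) := ν.2
  haveI : IsProbabilityMeasure (Subtype.val μ) := μ.2
  refine ext_of_generate_finite {s : Set X | IsClopen s} ?_ ?_ (fun s hs => ?_) (by simp)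
  · rw [BorelSpace.measurable_eq (α := X)]
    exact isTopologicalBasis_isClopen.borel_eq_generateFrom
  · intro s hs t ht _
    exact IsClopen.inter hs ht
  · have := h s hs
    unfold ev Measure.real at this
    exact (ENNReal.toReal_eq_toReal_iff' (measure_ne_top _ _) (measure_ne_top _ _)).1 this

theorem isClosed_inv {T : X → X} (hT : Continuous T) :
    IsClosed {μ : ProbabilityMeasure X | (μ : Measure X).map T = (μ : Measure X)} := by
  have h1 : Continuous fun μ : ProbabilityMeasure X => μ.map (f := T) hT.aemeasurable :=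
    ProbabilityMeasure.continuous_map hT
  have h2 : {μ : ProbabilityMeasure X | (μ : Measure X).map T = (μ : Measure X)} =
      {μ : ProbabilityMeasure X | μ.map (f := T) hT.aemeasurable = μ} := by
    ext μ
    simp only [mem_ofPred_eq]
    constructor
    · intro h
      exact Subtype.ext h
    · intro h
      exact congrArg Subtype.val h
  rw [h2]
  exact isClosed_eq h1 continuous_id

/-- the strictly convex functional -/
noncomputable def FF (μ : ProbabilityMeasure X) : ℝ :=
  letI := Encodable.ofCountable (Clopens X)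
  ∑' K : Clopens X, (1 / 2 : ℝ) ^ Encodable.encode K * ev μ K ^ 2

theorem summ (μ : ProbabilityMeasure X) (ν : ProbabilityMeasure X) :
    letI := Encodable.ofCountable (Clopens X)
    Summable fun K : Clopens X => (1 / 2 : ℝ) ^ Encodable.encode K * (ev μ K * ev ν K) := by
  letI := Encodable.ofCountable (Clopens X)
  refine Summable.of_nonneg_of_le (fun K => mul_nonneg (by positivity)
    (mul_nonneg (ev_nonneg _ _) (ev_nonneg _ _))) (fun K => ?_)
    (summable_geometric_two_encode (ι := Clopens X))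
  have h1 : ev μ K * ev ν K ≤ 1 := mul_le_one₀ (ev_le_one _ _) (ev_nonneg _ _) (ev_le_one _ _)
  have h2 : (0 : ℝ) ≤ (1 / 2 : ℝ) ^ Encodable.encode K := by positivity
  calc _ ≤ (1 / 2 : ℝ) ^ Encodable.encode K * 1 := mul_le_mul_of_nonneg_left h1 h2
    _ = _ := mul_one _

theorem continuous_FF : Continuous (FF (X := X)) := by
  letI := Encodable.ofCountable (Clopens X)
  unfold FF
  refine continuous_tsum (u := fun K : Clopens X => (1 / 2 : ℝ) ^ Encodable.encode K)
    (fun K => ?_) (summable_geometric_two_encode (ι := Clopens X)) (fun K μ => ?_)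
  · exact continuous_const.mul ((continuous_ev K.isClopen).pow 2)
  · rw [Real.norm_eq_abs, abs_of_nonneg (mul_nonneg (by positivity) (sq_nonneg _))]
    have h1 : ev μ K ^ 2 ≤ 1 := pow_le_one₀ (ev_nonneg _ _) (ev_le_one _ _)
    have h2 : (0 : ℝ) ≤ (1 / 2 : ℝ) ^ Encodable.encode K := by positivity
    calc _ ≤ (1 / 2 : ℝ) ^ Encodable.encode K * 1 := mul_le_mul_of_nonneg_left h1 h2
      _ = _ := mul_one _

/-- strict convexity -/
theorem FF_convex {μ μ₁ μ₂ : ProbabilityMeasure X} {t : ℝ} (ht0 : 0 < t) (ht1 : t < 1)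
    (hμ : ∀ K : Set X, IsClopen K → ev μ K = t * ev μ₁ K + (1 - t) * ev μ₂ K)
    (h1 : FF μ₁ ≤ FF μ) (h2 : FF μ₂ ≤ FF μ) : μ₁ = μ₂ := by
  letI := Encodable.ofCountable (Clopens X)
  have s1 := summ μ₁ μ₁
  have s2 := summ μ₂ μ₂
  have s3 := summ μ μ
  have key : ∀ K : Clopens X, (1 / 2 : ℝ) ^ Encodable.encode K * (t * (1 - t) * (ev μ₁ K - ev μ₂ K) ^ 2)
      = t * ((1 / 2 : ℝ) ^ Encodable.encode K * (ev μ₁ K * ev μ₁ K)) +
        (1 - t) * ((1 / 2 : ℝ) ^ Encodable.encode K * (ev μ₂ K * ev μ₂ K)) -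
        (1 / 2 : ℝ) ^ Encodable.encode K * (ev μ K * ev μ K) := by
    intro K
    rw [hμ K K.isClopen]
    ring
  have s4 : Summable fun K : Clopens X =>
      (1 / 2 : ℝ) ^ Encodable.encode K * (t * (1 - t) * (ev μ₁ K - ev μ₂ K) ^ 2) := by
    simp_rw [key]
    exact ((s1.mul_left t).add (s2.mul_left (1 - t))).sub s3
  have e1 : FF μ₁ = ∑' K : Clopens X, (1 / 2 : ℝ) ^ Encodable.encode K * (ev μ₁ K * ev μ₁ K) := by
    unfold FF; simp_rw [sq]
  have e2 : FF μ₂ = ∑' K : Clopens X, (1 / 2 : ℝ) ^ Encodable.encode K * (ev μ₂ K * ev μ₂ K) := by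
    unfold FF; simp_rw [sq]
  have e3 : FF μ = ∑' K : Clopens X, (1 / 2 : ℝ) ^ Encodable.encode K * (ev μ K * ev μ K) := by
    unfold FF; simp_rw [sq]
  have hsum : ∑' K : Clopens X,
      (1 / 2 : ℝ) ^ Encodable.encode K * (t * (1 - t) * (ev μ₁ K - ev μ₂ K) ^ 2) =
      t * FF μ₁ + (1 - t) * FF μ₂ - FF μ := by
    simp_rw [key]
    rw [((s1.mul_left t).add (s2.mul_left (1 - t))).tsum_sub s3,
      (s1.mul_left t).tsum_add (s2.mul_left (1 - t)), tsum_mul_left, tsum_mul_left, e1, e2, e3]
  have hle : ∑' K : Clopens X,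
      (1 / 2 : ℝ) ^ Encodable.encode K * (t * (1 - t) * (ev μ₁ K - ev μ₂ K) ^ 2) ≤ 0 := by
    rw [hsum]
    nlinarith
  have hnn : ∀ K : Clopens X,
      0 ≤ (1 / 2 : ℝ) ^ Encodable.encode K * (t * (1 - t) * (ev μ₁ K - ev μ₂ K) ^ 2) := by
    intro K
    have : 0 < 1 - t := by linarith
    positivity
  apply ext_ev
  intro K hK
  by_contra hne
  have hpos : 0 < (1 / 2 : ℝ) ^ Encodable.encode (⟨K, hK⟩ : Clopens X) *
      (t * (1 - t) * (ev μ₁ K - ev μ₂ K) ^ 2) := by
    have h3 : 0 < 1 - t := by linarith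
    have h4 : 0 < (ev μ₁ K - ev μ₂ K) ^ 2 := by
      have : ev μ₁ K - ev μ₂ K ≠ 0 := sub_ne_zero.2 hne
      positivity
    positivity
  have := s4.tsum_pos hnn (⟨K, hK⟩ : Clopens X) hpos
  linarith

theorem exists_inv [Nonempty X] {T : X → X} (hT : Continuous T) :
    ∃ μ : ProbabilityMeasure X, (μ : Measure X).map T = (μ : Measure X) := by
  obtain ⟨z⟩ := ‹Nonempty X›
  -- averages
  set mu : ℕ → Measure X := fun n =>
    ((n : ℝ≥0∞) + 1)⁻¹ • ∑ i ∈ Finset.range (n + 1), Measure.dirac (T^[i] z) with hmu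
  have hprob : ∀ n, IsProbabilityMeasure (mu n) := by
    intro n
    refine ⟨?_⟩
    rw [hmu]
    simp only [Measure.smul_apply, Measure.finsetSum_apply, smul_eq_mul, measure_univ,
      Finset.sum_const, Finset.card_range, nsmul_eq_mul, mul_one]
    push_cast
    exact ENNReal.inv_mul_cancel (by simp) (by finiteness)
  set mun : ℕ → ProbabilityMeasure X := fun n => ⟨mu n, hprob n⟩ with hmun
  have hint : ∀ (n : ℕ) (g : C(X, ℝ)), ∫ x, g x ∂(mu n) =
      ((n : ℝ) + 1)⁻¹ * ∑ i ∈ Finset.range (n + 1), g (T^[i] z) := by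
    intro n g
    rw [hmu]
    simp only
    rw [integral_smul_measure, integral_finsetSum_measure]
    · have : (((n : ℝ≥0∞) + 1)⁻¹).toReal = ((n : ℝ) + 1)⁻¹ := by
        rw [ENNReal.toReal_inv, ENNReal.toReal_add (by simp) (by simp)]
        simp
      rw [this, smul_eq_mul]
      congr 1
      refine Finset.sum_congr rfl fun i _ => ?_
      rw [integral_dirac]
    · intro i _
      exact (integrable_const (‖g‖)).mono' g.continuous.aestronglyMeasurable
        (Eventually.of_forall fun x => g.norm_coe_le_norm x)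
  set U : Ultrafilter ℕ := hyperfilter ℕ with hU
  obtain ⟨μ, hμ⟩ : ∃ μ : ProbabilityMeasure X, Tendsto mun U (𝓝 μ) :=
    ⟨_, (U.map mun).le_nhds_lim⟩
  refine ⟨μ, ?_⟩
  have hμ' := ProbabilityMeasure.tendsto_iff_forall_integral_tendsto.1 hμ
  have lim : ∀ g : C(X, ℝ), Tendsto (fun n : ℕ => ((n : ℝ) + 1)⁻¹ *
      ∑ i ∈ Finset.range (n + 1), g (T^[i] z)) U (𝓝 (∫ x, g x ∂(μ : Measure X))) := by
    intro g
    have := hμ' (BoundedContinuousFunction.mkOfCompact g)
    refine this.congr fun n => ?_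
    exact hint n g
  have hinv0 : Tendsto (fun n : ℕ => ((n:ℝ) + 1)⁻¹) U (𝓝 0) := by
    have : Tendsto (fun n : ℕ => ((n:ℝ) + 1)⁻¹) atTop (𝓝 0) := by
      simpa only [one_div] using tendsto_one_div_add_atTop_nhds_zero_nat (𝕜 := ℝ)
    exact this.mono_left Nat.hyperfilter_le_atTop
  have : IsProbabilityMeasure ((μ : Measure X).map T) :=
    Measure.isProbabilityMeasure_map hT.aemeasurable
  refine ext_of_forall_integral_eq_of_IsFiniteMeasure fun f => ?_
  rw [integral_map hT.aemeasurable f.continuous.aestronglyMeasurable]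
  have l1 := lim ⟨fun x => f (T x), f.continuous.comp hT⟩
  have l2 := lim ⟨fun x => f x, f.continuous⟩
  simp only [ContinuousMap.coe_mk] at l1 l2
  have l3 := l1.sub l2
  have l4 : Tendsto (fun n : ℕ => ((n : ℝ) + 1)⁻¹ * (∑ i ∈ Finset.range (n + 1), f (T (T^[i] z))) -
      ((n : ℝ) + 1)⁻¹ * ∑ i ∈ Finset.range (n + 1), f (T^[i] z)) U (𝓝 0) := by
    have bound : ∀ n : ℕ, ‖((n : ℝ) + 1)⁻¹ * (∑ i ∈ Finset.range (n + 1), f (T (T^[i] z))) -
      ((n : ℝ) + 1)⁻¹ * ∑ i ∈ Finset.range (n + 1), f (T^[i] z)‖ ≤ ((n:ℝ) + 1)⁻¹ * (2 * ‖f‖) := by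
      intro n
      rw [← mul_sub, norm_mul]
      have e0 : ‖((n : ℝ) + 1)⁻¹‖ = ((n : ℝ) + 1)⁻¹ := by
        rw [Real.norm_eq_abs, abs_of_nonneg (by positivity)]
      rw [e0]
      refine mul_le_mul_of_nonneg_left ?_ (by positivity)
      have e1 : ∑ i ∈ Finset.range (n + 1), f (T (T^[i] z)) - ∑ i ∈ Finset.range (n + 1), f (T^[i] z)
          = f (T^[n + 1] z) - f z := by
        rw [← Finset.sum_sub_distrib]
        have : ∀ i ∈ Finset.range (n + 1), f (T (T^[i] z)) - f (T^[i] z) =
            f (T^[i + 1] z) - f (T^[i] z) := by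
          intro i _
          rw [Function.iterate_succ_apply']
        rw [Finset.sum_congr rfl this, Finset.sum_range_sub (fun i => f (T^[i] z))]
        simp
      rw [e1]
      refine (norm_sub_le _ _).trans ?_
      have a := f.norm_coe_le_norm (T^[n + 1] z)
      have b := f.norm_coe_le_norm z
      linarith
    refine squeeze_zero_norm bound ?_
    simpa using hinv0.mul_const (2 * ‖f‖)
  have := tendsto_nhds_unique l3 l4
  linarith

theorem cond_mem {T : X → X} (hT : Continuous T) {μ : ProbabilityMeasure X}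
    (hμ : (μ : Measure X).map T = (μ : Measure X)) {s : Set X}
    (hs : MeasurableSet s) (hinv : T ⁻¹' s = s) (hs0 : (μ : Measure X) s ≠ 0) :
    ∃ ν : ProbabilityMeasure X, (ν : Measure X).map T = (ν : Measure X) ∧
      (ν : Measure X) = ProbabilityTheory.cond (μ : Measure X) s := by
  haveI := ProbabilityTheory.cond_isProbabilityMeasure (μ := (μ : Measure X)) hs0
  refine ⟨⟨ProbabilityTheory.cond (μ : Measure X) s, inferInstance⟩, ?_, rfl⟩
  ext A hA
  change (Measure.map _ (ProbabilityTheory.cond (μ : Measure X) s)) A =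
    (ProbabilityTheory.cond (μ : Measure X) s) A
  rw [Measure.map_apply hT.measurable hA, ProbabilityTheory.cond_apply hs,
    ProbabilityTheory.cond_apply hs]
  congr 1
  have h1 : s ∩ T ⁻¹' A = T ⁻¹' (s ∩ A) := by
    rw [preimage_inter, hinv]
  rw [h1, ← Measure.map_apply hT.measurable (hs.inter hA), hμ]

theorem exists_ergodic [Nonempty X] {T : X → X} (hT : Continuous T) :
    ∃ μ : Measure X, IsProbabilityMeasure μ ∧ Ergodic T μ := by
  set MM : Set (ProbabilityMeasure X) :=
    {μ : ProbabilityMeasure X | (μ : Measure X).map T = (μ : Measure X)} with hMM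
  have hne : MM.Nonempty := exists_inv hT
  obtain ⟨μ, hμ, hmax⟩ :=
    (isClosed_inv hT).isCompact.exists_isMaxOn hne continuous_FF.continuousOn
  have hμ' : (μ : Measure X).map T = (μ : Measure X) := hμ
  refine ⟨μ, inferInstance, ⟨⟨hT.measurable, hμ'⟩, ⟨?_⟩⟩⟩
  intro s hs hinv
  by_contra hcon
  obtain ⟨hs1, hs2⟩ : (μ : Measure X) s ≠ 0 ∧ (μ : Measure X) sᶜ ≠ 0 := by
    simpa [eventuallyConst_set, ae_iff, and_comm] using! hcon
  obtain ⟨μ₁, h1, e1⟩ := cond_mem hT hμ' hs hinv hs1
  obtain ⟨μ₂, h2, e2⟩ := cond_mem hT hμ' hs.compl (by rw [preimage_compl, hinv]) hs2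
  have hconv : ∀ K : Set X, IsClopen K →
      ev μ K = (μ : Measure X).real s * ev μ₁ K + (1 - (μ : Measure X).real s) * ev μ₂ K := by
    intro K hK
    have hKm : MeasurableSet K := hK.isOpen.measurableSet
    unfold ev
    rw [e1, e2]
    have r1 : (μ : Measure X).real s * (ProbabilityTheory.cond (μ : Measure X) s).real K =
        (μ : Measure X).real (s ∩ K) := by
      unfold Measure.real
      rw [ProbabilityTheory.cond_apply hs, ENNReal.toReal_mul, ENNReal.toReal_inv, ← mul_assoc,
        mul_inv_cancel₀ (ENNReal.toReal_ne_zero.2 ⟨hs1, measure_ne_top _ _⟩), one_mul]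
    have r2 : (1 - (μ : Measure X).real s) * (ProbabilityTheory.cond (μ : Measure X) sᶜ).real K =
        (μ : Measure X).real (sᶜ ∩ K) := by
      rw [← probReal_compl_eq_one_sub hs]
      unfold Measure.real
      rw [ProbabilityTheory.cond_apply hs.compl, ENNReal.toReal_mul, ENNReal.toReal_inv, ← mul_assoc,
        mul_inv_cancel₀ (ENNReal.toReal_ne_zero.2 ⟨hs2, measure_ne_top _ _⟩), one_mul]
    rw [r1, r2]
    have := measureReal_inter_add_sdiff (μ := (μ : Measure X)) (s := K) hs
    rw [← this, inter_comm, sdiff_eq, inter_comm K sᶜ]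
  have ht0 : 0 < (μ : Measure X).real s := ENNReal.toReal_pos hs1 (measure_ne_top _ _)
  have ht1 : (μ : Measure X).real s < 1 := by
    have h3 : 0 < (μ : Measure X).real sᶜ := ENNReal.toReal_pos hs2 (measure_ne_top _ _)
    rw [probReal_compl_eq_one_sub hs] at h3
    linarith
  have heq := FF_convex ht0 ht1 hconv (hmax h1) (hmax h2)
  have h5 : (μ₁ : Measure X) s = 1 := by
    rw [e1, ProbabilityTheory.cond_apply hs, inter_self]
    exact ENNReal.inv_mul_cancel hs1 (measure_ne_top _ _)
  have h6 : (μ₂ : Measure X) s = 0 := by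
    rw [e2, ProbabilityTheory.cond_apply hs.compl]
    simp
  rw [heq, h6] at h5
  exact zero_ne_one h5

end Pool.Agent.V8H52.TZ.Erg
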