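import Pool.Agent.V8H52.TZ3
import Pool.Agent.V8H52.TZ4

set_option autoImplicit false

open MeasureTheory Filter Topology Set
open scoped ENNReal NNReal symmDiff

namespace Pool.Agent.V8H52.TZ

/-- A Toeplitz sequence: not periodic, and every position is periodic. -/
def IsToeplitz {A : Type} (x : ℤ → A) : Prop :=
  (¬ ∃ p : ℕ, 1 ≤ p ∧ ∀ n : ℤ, x (n + p) = x n) ∧
  ∀ n : ℤ, ∃ p : ℕ, 1 ≤ p ∧ ∀ k : ℤ, x (n + k * p) = x n

/-- The orbit closure of a sequence under the shift. -/
def orbitClosure {A : Type} [TopologicalSpace A] (x : ℤ → A) : Set (ℤ → A) :=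
  closure (Set.range fun k : ℤ => fun n : ℤ => x (n + k))

theorem shift_mem {A : Type} [TopologicalSpace A] {x y : ℤ → A} (s : ℤ)
    (hy : y ∈ orbitClosure x) : (fun n => y (n + s)) ∈ orbitClosure x := by
  have hc : Continuous fun z : ℤ → A => fun n : ℤ => z (n + s) :=
    continuous_pi fun n => continuous_apply _
  refine map_mem_closure hc hy ?_
  rintro _ ⟨k, rfl⟩
  refine ⟨k + s, ?_⟩
  funext n
  change x (n + (k + s)) = x (n + s + k)
  congr 1; ring

/-- The shift on the orbit closure, as a homeomorphism. -/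
def shiftOn {A : Type} [TopologicalSpace A] (x : ℤ → A) : orbitClosure x ≃ₜ orbitClosure x where
  toFun y := ⟨fun n => y.1 (n + 1), shift_mem 1 y.2⟩
  invFun y := ⟨fun n => y.1 (n + (-1)), shift_mem (-1) y.2⟩
  left_inv y := by ext n; simp
  right_inv y := by ext n; simp
  continuous_toFun := by
    refine Continuous.subtype_mk ?_ _
    refine continuous_pi fun n => ?_
    exact (continuous_apply (n + 1)).comp continuous_subtype_val
  continuous_invFun := by
    refine Continuous.subtype_mk ?_ _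
    refine continuous_pi fun n => ?_
    exact (continuous_apply (n + (-1))).comp continuous_subtype_val

/-- `(X, T, μ)` is (measure-theoretically) rigid. -/
def Rigid {X : Type} [MeasurableSpace X] (T : X → X) (μ : Measure X) : Prop :=
  ∃ n : ℕ → ℕ, Tendsto n atTop atTop ∧ ∀ B : Set X, MeasurableSet B →
    Tendsto (fun k => μ (T^[n k] '' B ∩ B)) atTop (𝓝 (μ B))

/-- `(X, T, μ)` is partially rigid. -/
def PartiallyRigid {X : Type} [MeasurableSpace X] (T : X → X) (μ : Measure X) : Prop :=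
  ∃ δ : ℝ≥0∞, 0 < δ ∧ ∃ n : ℕ → ℕ, Tendsto n atTop atTop ∧ ∀ B : Set X, MeasurableSet B →
    δ * μ B ≤ liminf (fun k => μ (T^[n k] '' B ∩ B)) atTop

abbrev X := orbitClosure x
abbrev T : X → X := shiftOn x

instance : CompactSpace X := isCompact_iff_compactSpace.1 (isClosed_closure.isCompact)

theorem pt_mem (k : ℤ) : (fun n : ℤ => x (n + k)) ∈ orbitClosure x :=
  subset_closure ⟨k, rfl⟩

def pt (k : ℤ) : X := ⟨fun n => x (n + k), pt_mem k⟩

instance : Nonempty X := ⟨pt 0⟩

theorem T_iter (n : ℕ) (y : X) (i : ℤ) : (T^[n] y).1 i = y.1 (i + n) := by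
  induction n generalizing y with
  | zero => simp
  | succ n ih =>
    rw [Function.iterate_succ_apply, ih]
    change y.1 (i + n + 1) = _
    push_cast
    congr 1
    ring

theorem dense_window (y : X) (F : Finset ℤ) : ∃ k : ℤ, ∀ i ∈ F, y.1 i = x (i + k) := by
  have hy : y.1 ∈ closure (Set.range fun k : ℤ => fun n : ℤ => x (n + k)) := y.2
  rw [mem_closure_iff] at hy
  have ho : IsOpen {z : ℤ → Bool | ∀ i ∈ F, z i = y.1 i} := by
    have : {z : ℤ → Bool | ∀ i ∈ F, z i = y.1 i} = Set.pi (F : Set ℤ) (fun i => {y.1 i}) := by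
      ext z
      simp [Set.mem_pi]
    rw [this]
    exact isOpen_set_pi F.finite_toSet (fun i _ => isOpen_discrete _)
  obtain ⟨z, hz, k, rfl⟩ := hy _ ho (by simp)
  exact ⟨k, fun i hi => (hz i hi).symm⟩

theorem average {μ : Measure X} [IsProbabilityMeasure μ] (hT : MeasurePreserving T μ μ)
    (Φ : X → ℝ) (hΦ : Integrable Φ μ) (c C0 : ℝ)
    (h : ∀ (y : X) (N : ℕ), c * N - C0 ≤ ∑ i ∈ Finset.range N, Φ (T^[i] y)) :
    c ≤ ∫ y, Φ y ∂μ := by
  have hi : ∀ i : ℕ, ∫ y, Φ (T^[i] y) ∂μ = ∫ y, Φ y ∂μ := by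
    intro i
    have hTi := hT.iterate i
    have h1 : ∫ y, Φ y ∂μ = ∫ y, Φ y ∂(μ.map T^[i]) := by rw [hTi.map_eq]
    rw [h1, integral_map hTi.measurable.aemeasurable]
    rw [hTi.map_eq]
    exact hΦ.aestronglyMeasurable
  have hint : ∀ i : ℕ, Integrable (fun y => Φ (T^[i] y)) μ := fun i =>
    (hT.iterate i).integrable_comp_of_integrable hΦ
  have key : ∀ N : ℕ, c * N - C0 ≤ N * ∫ y, Φ y ∂μ := by
    intro N
    have h2 : ∫ y, ∑ i ∈ Finset.range N, Φ (T^[i] y) ∂μ = N * ∫ y, Φ y ∂μ := by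
      rw [integral_finsetSum _ (fun i _ => hint i)]
      simp [hi]
    rw [← h2]
    have h3 : ∫ _ : X, (c * N - C0) ∂μ = c * N - C0 := by simp
    rw [← h3]
    exact integral_mono (integrable_const _) (integrable_finsetSum _ fun i _ => hint i)
      (fun y => h y N)
  by_contra hc
  push Not at hc
  obtain ⟨N, hN⟩ := exists_nat_gt (C0 / (c - ∫ y, Φ y ∂μ))
  have h4 := key N
  have h5 : 0 < c - ∫ y, Φ y ∂μ := by linarith
  rw [div_lt_iff₀ h5] at hN
  nlinarith

theorem mis_measure {μ : Measure X} [IsProbabilityMeasure μ] (hT : MeasurePreserving T μ μ)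
    (n : ℕ) (hn : 1 ≤ n) : 1 / 64 ≤ μ.real {y : X | y.1 0 ≠ y.1 n} := by
  obtain ⟨k, hk⟩ := mis_freq n hn
  have hmeas : MeasurableSet {y : X | y.1 0 ≠ y.1 n} := by
    have h1 : Measurable fun y : X => y.1 0 := (measurable_pi_apply _).comp measurable_subtype_coe
    have h2 : Measurable fun y : X => y.1 n := (measurable_pi_apply _).comp measurable_subtype_coe
    exact (measurableSet_eq_fun h1 h2).compl
  have h1 : ∫ y, ({y : X | y.1 0 ≠ y.1 n}.indicator 1 : X → ℝ) y ∂μ =
      μ.real {y : X | y.1 0 ≠ y.1 n} := integral_indicator_one hmeas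
  rw [← h1]
  refine average hT ({y : X | y.1 0 ≠ y.1 n}.indicator (1 : X → ℝ))
    ((integrable_const (1 : ℝ)).indicator hmeas) (1 / 64) (4 * p (k + 1)) ?_
  intro y N
  obtain ⟨s, hs⟩ := dense_window y (Finset.Icc 0 ((N : ℤ) + n))
  have h2 : ∑ i ∈ Finset.range N, ({y : X | y.1 0 ≠ y.1 n}.indicator 1 : X → ℝ) (T^[i] y) =
      ∑ i ∈ Finset.range N, (mis n (s + i) : ℝ) := by
    refine Finset.sum_congr rfl fun i hi => ?_
    rw [Finset.mem_range] at hi
    have e1 : (T^[i] y).1 0 = x (s + i) := by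
      rw [T_iter, zero_add, hs i (by simp; omega)]
      congr 1; ring
    have e2 : (T^[i] y).1 n = x (s + i + n) := by
      rw [T_iter, hs ((n : ℤ) + i) (by simp; omega)]
      congr 1; ring
    unfold mis
    by_cases c1 : x (s + i) = x (s + i + n)
    · rw [if_pos c1, indicator_of_notMem]
      · simp
      · simp only [mem_ofPred_eq, e1, e2, c1, ne_eq, not_true_eq_false, not_false_eq_true]
    · rw [if_neg c1, indicator_of_mem]
      · simp
      · simp only [mem_ofPred_eq, e1, e2, ne_eq, c1, not_false_eq_true]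
  rw [h2]
  refine window (fun t => (mis n t : ℝ)) ?_ (p (k + 1)) (p_pos _) (1 / 64) ?_ ?_ s N
  · intro t
    unfold mis
    split_ifs <;> simp
  · rw [abs_of_nonneg] <;> norm_num
  · intro m
    have := hk m
    have h3 : (p (k + 1) : ℝ) ≤ 64 * ∑ i ∈ Finset.range (p (k + 1)),
        (mis n (m * p (k + 1) + i) : ℝ) := by exact_mod_cast this
    linarith

theorem image_inter {μ : Measure X} (hT : MeasurePreserving T μ μ) (n : ℕ) {B : Set X}
    (hB : MeasurableSet B) : μ (T^[n] '' B ∩ B) = μ (B ∩ T^[n] ⁻¹' B) := by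
  have hinj : Function.Injective (T^[n]) := (shiftOn x).injective.iterate n
  have h1 : B ∩ T^[n] ⁻¹' B = T^[n] ⁻¹' (T^[n] '' B ∩ B) := by
    rw [preimage_inter, hinj.preimage_image]
  have hsurj : Function.Surjective (T^[n]) := (shiftOn x).surjective.iterate n
  have hcont : Continuous (T^[n]) := (shiftOn x).continuous.iterate n
  have hme : MeasurableSet (T^[n] '' B) := by
    have : MeasurableEmbedding (T^[n]) :=
      (hcont.isClosedEmbedding hinj).measurableEmbedding
    exact this.measurableSet_image' hB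
  rw [h1, (hT.iterate n).measure_preimage (hme.inter hB).nullMeasurableSet]

theorem not_rigid {μ : Measure X} [IsProbabilityMeasure μ] (hT : MeasurePreserving T μ μ) :
    ¬ Rigid T μ := by
  rintro ⟨n, hn, h⟩
  set B : Set X := {y | y.1 0 = true} with hB
  have hmeas : MeasurableSet B := by
    have h1 : Measurable fun y : X => y.1 0 := (measurable_pi_apply _).comp measurable_subtype_coe
    exact h1 (measurableSet_singleton true)
  have h1 := h B hmeas
  have h2 : Tendsto (fun k => μ.real (B ∩ T^[n k] ⁻¹' B)) atTop (𝓝 (μ.real B)) := by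
    have : Tendsto (fun k => (μ (T^[n k] '' B ∩ B)).toReal) atTop (𝓝 (μ B).toReal) :=
      (ENNReal.tendsto_toReal (measure_ne_top μ B)).comp h1
    refine this.congr fun k => ?_
    rw [image_inter hT _ hmeas]
    rfl
  have h3 : ∀ m : ℕ, μ.real {y : X | y.1 0 ≠ y.1 m} = 2 * (μ.real B - μ.real (B ∩ T^[m] ⁻¹' B)) := by
    intro m
    have hpm : MeasurableSet (T^[m] ⁻¹' B) := (hT.iterate m).measurable hmeas
    have e1 : μ.real (T^[m] ⁻¹' B) = μ.real B := by
      unfold Measure.real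
      rw [(hT.iterate m).measure_preimage hmeas.nullMeasurableSet]
    have e2 : {y : X | y.1 0 ≠ y.1 m} = (B \ T^[m] ⁻¹' B) ∪ (T^[m] ⁻¹' B \ B) := by
      ext y
      simp only [hB, mem_ofPred_eq, mem_union, Set.mem_sdiff, mem_preimage, T_iter, zero_add]
      cases y.1 0 <;> cases y.1 m <;> simp
    have e3 : Disjoint (B \ T^[m] ⁻¹' B) (T^[m] ⁻¹' B \ B) := by
      rw [Set.disjoint_left]
      rintro y ⟨a, _⟩ ⟨_, b⟩
      exact b a
    rw [e2, measureReal_union e3 (hpm.diff hmeas)]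
    have e4 := measureReal_inter_add_sdiff (μ := μ) (s := B) hpm
    have e5 := measureReal_inter_add_sdiff (μ := μ) (s := T^[m] ⁻¹' B) hmeas
    rw [inter_comm] at e5
    rw [e1] at e5
    linarith
  have h4 : Tendsto (fun k => 2 * (μ.real B - μ.real (B ∩ T^[n k] ⁻¹' B))) atTop (𝓝 0) := by
    have := (tendsto_const_nhds (x := μ.real B)).sub h2
    rw [sub_self] at this
    simpa using this.const_mul 2
  have h5 : ∀ᶠ k in atTop, 1 / 64 ≤ 2 * (μ.real B - μ.real (B ∩ T^[n k] ⁻¹' B)) := by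
    filter_upwards [hn.eventually_ge_atTop 1] with k hk
    rw [← h3]
    exact mis_measure hT _ hk
  have := ge_of_tendsto h4 h5
  norm_num at this

/-- sets determined by a finite window -/
def Loc (l : ℕ) (C : Set X) : Prop :=
  ∀ y z : X, (∀ i : ℤ, -(l : ℤ) ≤ i → i ≤ l → y.1 i = z.1 i) → (y ∈ C → z ∈ C)

theorem Loc.isOpen {l : ℕ} {C : Set X} (h : Loc l C) : IsOpen C := by
  rw [isOpen_iff_forall_mem_open]
  intro y hy
  refine ⟨{z : X | ∀ i ∈ Finset.Icc (-(l : ℤ)) l, z.1 i = y.1 i}, ?_, ?_, by simp⟩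
  · intro z hz
    exact h y z (fun i h1 h2 => (hz i (Finset.mem_Icc.2 ⟨h1, h2⟩)).symm) hy
  · have : {z : X | ∀ i ∈ Finset.Icc (-(l : ℤ)) l, z.1 i = y.1 i} =
        Subtype.val ⁻¹' (Set.pi ((Finset.Icc (-(l : ℤ)) l : Finset ℤ) : Set ℤ) (fun i => {y.1 i})) := by
      ext z
      simp [Set.mem_pi]
    rw [this]
    exact (isOpen_set_pi (Finset.finite_toSet _) (fun i _ => isOpen_discrete _)).preimage
      continuous_subtype_val

theorem Loc.mono {l l' : ℕ} {C : Set X} (h : Loc l C) (hl : l ≤ l') : Loc l' C :=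
  fun y z hyz => h y z fun i h1 h2 => hyz i (by omega) (by omega)

theorem Loc.compl {l : ℕ} {C : Set X} (h : Loc l C) : Loc l Cᶜ :=
  fun y z hyz hy hz => hy (h z y (fun i h1 h2 => (hyz i h1 h2).symm) hz)

theorem Loc.union {l : ℕ} {C D : Set X} (h : Loc l C) (h' : Loc l D) : Loc l (C ∪ D) :=
  fun y z hyz hy => hy.imp (h y z hyz) (h' y z hyz)

def Alg : Set (Set X) := {C | ∃ l : ℕ, Loc l C}

theorem isSetAlgebra_Alg : IsSetAlgebra Alg where
  empty_mem := ⟨0, fun _ _ _ h => h⟩
  compl_mem := fun s ⟨l, hl⟩ => ⟨l, hl.compl⟩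
  union_mem := fun s t ⟨l, hl⟩ ⟨l', hl'⟩ =>
    ⟨max l l', (hl.mono (le_max_left _ _)).union (hl'.mono (le_max_right _ _))⟩

theorem gen_Alg : (inferInstance : MeasurableSpace X) = MeasurableSpace.generateFrom Alg := by
  apply le_antisymm
  · have : @Measurable X (ℤ → Bool) (MeasurableSpace.generateFrom Alg) _ Subtype.val := by
      refine @measurable_pi_lambda _ _ _ (MeasurableSpace.generateFrom Alg) _ _ fun i => ?_
      intro s _
      apply MeasurableSpace.measurableSet_generateFrom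
      refine ⟨i.natAbs, fun y z hyz hy => ?_⟩
      have := hyz i (by omega) (by omega)
      change z.1 i ∈ s
      rw [← this]
      exact hy
    exact measurable_iff_comap_le.1 this
  · apply MeasurableSpace.generateFrom_le
    rintro C ⟨l, hl⟩
    exact hl.isOpen.measurableSet

theorem loc_rigid {μ : Measure X} [IsProbabilityMeasure μ] (hT : MeasurePreserving T μ μ)
    {l : ℕ} {C : Set X} (hC : Loc l C) (k : ℕ) (hk : l ≤ p k) :
    1 / 16 * μ.real C - l / (8 * p k) ≤ μ.real (C ∩ T^[p k] ⁻¹' C) := by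
  classical
  have hCm : MeasurableSet C := hC.isOpen.measurableSet
  have hDm : MeasurableSet (C ∩ T^[p k] ⁻¹' C) := hCm.inter ((hT.iterate _).measurable hCm)
  set D := C ∩ T^[p k] ⁻¹' C with hD
  set Φ : X → ℝ := fun y => D.indicator 1 y - 1 / 16 * C.indicator 1 y with hΦ
  have hi1 : Integrable (D.indicator 1 : X → ℝ) μ := (integrable_const (1 : ℝ)).indicator hDm
  have hi2 : Integrable (C.indicator 1 : X → ℝ) μ := (integrable_const (1 : ℝ)).indicator hCm
  have h1 : ∫ y, Φ y ∂μ = μ.real D - 1 / 16 * μ.real C := by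
    rw [hΦ, integral_sub hi1 (hi2.const_mul _), integral_const_mul, integral_indicator_one hDm,
      integral_indicator_one hCm]
  have hpk : (0 : ℝ) < p k := by exact_mod_cast p_pos k
  have h2 : -(l / (8 * p k) : ℝ) ≤ ∫ y, Φ y ∂μ := by
    refine average hT Φ (hi1.sub (hi2.const_mul _)) _ (4 * p (k + 1)) ?_
    intro y N
    obtain ⟨s, hs⟩ := dense_window y (Finset.Icc (-(l : ℤ)) ((N : ℤ) + p k + l))
    set A : ℤ → Prop := fun t => pt t ∈ C with hA
    have hA' : ∀ s t : ℤ, (∀ i : ℤ, -(l : ℤ) ≤ i → i ≤ l → x (s + i) = x (t + i)) →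
        (A s → A t) := by
      intro a b hab
      refine hC _ _ fun i h1 h2 => ?_
      have := hab i h1 h2
      change x (i + a) = x (i + b)
      rw [add_comm i a, add_comm i b]
      exact this
    set φ : ℤ → ℝ := fun t => (if A t ∧ A (t + p k) then 1 else 0) - 1 / 16 * (if A t then 1 else 0)
      with hφ
    have h3 : ∑ i ∈ Finset.range N, Φ (T^[i] y) = ∑ i ∈ Finset.range N, φ (s + i) := by
      refine Finset.sum_congr rfl fun i hi => ?_
      rw [Finset.mem_range] at hi
      have e1 : T^[i] y ∈ C ↔ A (s + i) := by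
        have : ∀ j : ℤ, -(l : ℤ) ≤ j → j ≤ l → (T^[i] y).1 j = (pt (s + i)).1 j := by
          intro j h1 h2
          rw [T_iter, hs (j + i) (by simp; omega)]
          change x _ = x _
          congr 1; ring
        exact ⟨hC _ _ this, hC _ _ fun j h1 h2 => (this j h1 h2).symm⟩
      have e2 : T^[p k] (T^[i] y) ∈ C ↔ A (s + i + p k) := by
        have : ∀ j : ℤ, -(l : ℤ) ≤ j → j ≤ l → (T^[p k] (T^[i] y)).1 j =
            (pt (s + i + p k)).1 j := by
          intro j h1 h2
          rw [T_iter, T_iter, hs (j + p k + i) (by simp; omega)]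
          change x _ = x _
          congr 1; ring
        exact ⟨hC _ _ this, hC _ _ fun j h1 h2 => (this j h1 h2).symm⟩
      rw [hΦ, hφ]
      simp only [indicator_apply, hD, mem_inter_iff, mem_preimage, e1, e2, Pi.one_apply]
    rw [h3]
    refine window φ ?_ (p (k + 1)) (p_pos _) _ ?_ ?_ s N
    · intro t
      rw [hφ]
      simp only
      by_cases c1 : A t <;> by_cases c2 : A (t + p k) <;> simp [c1, c2, abs_le] <;> norm_num
    · rw [abs_neg, abs_of_nonneg (by positivity), div_le_one (by positivity)]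
      have : (l : ℝ) ≤ p k := by exact_mod_cast hk
      linarith
    · intro m
      have h4 := rig_block A l hA' k m
      have h5 : ((∑ i ∈ Finset.range (p (k + 1)), (if A (m * p (k + 1) + i) then 1 else 0 : ℕ) : ℕ) : ℝ)
          ≤ ((16 * ∑ i ∈ Finset.range (p (k + 1)),
        (if A (m * p (k + 1) + i) ∧ A (m * p (k + 1) + i + p k) then 1 else 0 : ℕ) +
          2 * l * q k : ℕ) : ℝ) := by exact_mod_cast h4
      push_cast at h5
      rw [hφ]
      simp only
      rw [Finset.sum_sub_distrib, ← Finset.mul_sum]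
      have h6 : -(l / (8 * p k) : ℝ) * (p (k + 1) : ℕ) = -(2 * l * q k / 16) := by
        rw [p_succ]
        push_cast
        field_simp
        ring
      rw [h6]
      linarith
  rw [h1] at h2
  linarith

theorem partially_rigid_aux {μ : Measure X} [IsProbabilityMeasure μ]
    (hT : MeasurePreserving T μ μ) {B : Set X} (hB : MeasurableSet B) {ε : ℝ} (hε : 0 < ε) :
    ∀ᶠ k in atTop, 1 / 16 * μ.real B - ε ≤ μ.real (B ∩ T^[p k] ⁻¹' B) := by
  have hd := Measure.MeasureDense.of_generateFrom_isSetAlgebra_finite (μ := μ)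
    isSetAlgebra_Alg gen_Alg
  obtain ⟨C, ⟨l, hC⟩, hBC⟩ := hd.approx B hB (measure_ne_top _ _) (ε / 8) (by positivity)
  have hCm : MeasurableSet C := hC.isOpen.measurableSet
  have hBC' : μ.real (B ∆ C) ≤ ε / 8 := by
    unfold Measure.real
    exact ENNReal.toReal_le_of_le_ofReal (by positivity) hBC.le
  have hp : Tendsto (fun k => (p k : ℝ)) atTop atTop :=
    tendsto_natCast_atTop_atTop.comp p_strictMono.tendsto_atTop
  have h1 : Tendsto (fun k => (l : ℝ) / (8 * p k)) atTop (𝓝 0) :=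
    Tendsto.div_atTop tendsto_const_nhds (hp.const_mul_atTop (by norm_num))
  have h2 : ∀ᶠ k in atTop, (l : ℝ) / (8 * p k) < ε / 8 := h1.eventually_lt_const (by positivity)
  have h3 : ∀ᶠ k in atTop, l ≤ p k := p_strictMono.tendsto_atTop.eventually_ge_atTop l
  filter_upwards [h2, h3] with k hk1 hk2
  have h4 := loc_rigid hT hC k hk2
  -- μ B ≤ μ C + ε/8
  have h5 : μ.real B ≤ μ.real C + ε / 8 := by
    have : μ.real B ≤ μ.real (C ∪ B ∆ C) := measureReal_mono (by
      intro y hy
      by_cases h : y ∈ C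
      · exact Or.inl h
      · exact Or.inr (Or.inl ⟨hy, h⟩))
    have := this.trans (measureReal_union_le _ _)
    linarith
  have h6 : μ.real (C ∩ T^[p k] ⁻¹' C) ≤ μ.real (B ∩ T^[p k] ⁻¹' B) + (ε / 8 + ε / 8) := by
    have hsub : C ∩ T^[p k] ⁻¹' C ⊆ (B ∩ T^[p k] ⁻¹' B) ∪ (B ∆ C ∪ T^[p k] ⁻¹' (B ∆ C)) := by
      rintro y ⟨h1, h2⟩
      by_cases c1 : y ∈ B
      · by_cases c2 : T^[p k] y ∈ B
        · exact Or.inl ⟨c1, c2⟩
        · exact Or.inr (Or.inr (Or.inr ⟨h2, c2⟩))
      · exact Or.inr (Or.inl (Or.inr ⟨h1, c1⟩))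
    have e1 := (measureReal_mono (μ := μ) hsub).trans (measureReal_union_le _ _)
    have e2 := measureReal_union_le (μ := μ) (B ∆ C) (T^[p k] ⁻¹' (B ∆ C))
    have e3 : μ.real (T^[p k] ⁻¹' (B ∆ C)) = μ.real (B ∆ C) := by
      unfold Measure.real
      rw [(hT.iterate _).measure_preimage (hB.symmDiff hCm).nullMeasurableSet]
    linarith
  linarith

theorem partially_rigid {μ : Measure X} [IsProbabilityMeasure μ] (hT : MeasurePreserving T μ μ) :
    PartiallyRigid T μ := by
  refine ⟨ENNReal.ofReal (1 / 16), by simp, p, p_strictMono.tendsto_atTop, fun B hB => ?_⟩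
  have h1 : ∀ ε : ℝ, 0 < ε → ENNReal.ofReal (1 / 16 * μ.real B - ε) ≤
      liminf (fun k => μ (T^[p k] '' B ∩ B)) atTop := by
    intro ε hε
    refine le_liminf_of_le (by isBoundedDefault) ?_
    filter_upwards [partially_rigid_aux hT hB hε] with k hk
    rw [image_inter hT _ hB]
    refine (ENNReal.ofReal_le_ofReal hk).trans ?_
    rw [measureReal_def, ENNReal.ofReal_toReal (measure_ne_top _ _)]
  have h2 : ENNReal.ofReal (1 / 16) * μ B = ENNReal.ofReal (1 / 16 * μ.real B) := by
    rw [ENNReal.ofReal_mul (by norm_num), measureReal_def, ENNReal.ofReal_toReal (measure_ne_top _ _)]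
  rw [h2]
  have h3 : Tendsto (fun ε : ℝ => ENNReal.ofReal (1 / 16 * μ.real B - ε)) (𝓝[>] 0)
      (𝓝 (ENNReal.ofReal (1 / 16 * μ.real B))) := by
    have : Tendsto (fun ε : ℝ => 1 / 16 * μ.real B - ε) (𝓝[>] 0) (𝓝 (1 / 16 * μ.real B - 0)) :=
      (tendsto_const_nhds.sub tendsto_id).mono_left nhdsWithin_le_nhds
    rw [sub_zero] at this
    exact (ENNReal.continuous_ofReal.tendsto _).comp this
  refine le_of_tendsto h3 ?_
  filter_upwards [self_mem_nhdsWithin] with ε hε
  exact h1 ε hε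

end Pool.Agent.V8H52.TZ
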